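import Pool.Agent.Q46.GQ.Graph
import Pool.Agent.Q46.MH.One

set_option autoImplicit false

/-! # The criterion for one residue (generic version) -/

namespace Pool.Agent.Q46.GQ

open Finset Filter
open Pool.Agent.H469R2.NK (e norm_e e_add)
open Pool.Agent.TH915.PW (e_int sum_char)
open Pool.Agent.W147.PS (ff ff_compare ev_pow)
open Pool.Agent.Q46.MH hiding good iso_two graph goodR graphR good1 graph1

open Classical in
/-- the members of `Ω` with `A ≤ x < A + N` and `x` in `P` -/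
noncomputable def good1 {ι : Type*} (P : ℤ → Prop) (Ω : Finset ι) (x : ι → ℕ) (A N : ℕ) : Finset ι :=
  Ω.filter (fun i => x i ∈ Ico A (A + N) ∧ P (x i))

/-- a family of residues modulo `m` with small exponential sums: many of the residues in an interval are isolated -/
theorem graph1 (Q : ℝ → ℝ → ℤ → Prop) (hQ : CH Q 2) (ε : ℝ) (hε : 0 < ε) (hε1 : ε ≤ 1) : ∃ κ : ℝ, 0 < κ ∧ ∀ᶠ M : ℝ in atTop,
    ∀ (m : ℕ), 1 ≤ m → (m : ℝ) ≤ M →
    ∀ (ι : Type) (Ω : Finset ι) (x : ι → ℕ), (∀ i ∈ Ω, x i < m) →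
    ∀ B : ℝ, 0 ≤ B → (∀ h < m, h ≠ 0 → ‖∑ i ∈ Ω, e ((h : ℝ) * x i / m)‖ ≤ B) →
    ∀ A N : ℕ, A + N ≤ m → M ^ ε ≤ N →
      B * M ^ ε ≤ (N : ℝ) * Ω.card / m →
      (N : ℝ) * Ω.card / m * M ^ (-ε) ≤ (good1 (Q κ M) Ω x A N).card := by
  classical
  obtain ⟨κ, hκ, hg⟩ := graph Q hQ (ε / 2) (by positivity) (by linarith)
  refine ⟨κ, hκ, ?_⟩
  filter_upwards [hg, eventually_ge_atTop (2 : ℝ),
    (tendsto_rpow_atTop (show (0 : ℝ) < 1 / 2 by norm_num)).eventually_ge_atTop 2] with M hM hM2 hM3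
  intro m hm hmM ι Ω x hx B hB hS A N hAN hN hW
  have hM0 : 0 < M := by linarith
  have hmr : (0 : ℝ) < m := by exact_mod_cast hm
  set m2 : ℕ := ⌊M⌋₊ with hm2
  have hm2M : (m2 : ℝ) ≤ M := Nat.floor_le hM0.le
  have hm21 : 1 ≤ m2 := Nat.le_floor (by push_cast; linarith)
  have hm2r : (0 : ℝ) < m2 := by exact_mod_cast hm21
  have hm2e : M ^ (ε / 2) ≤ m2 := by
    have h1 : M ^ (ε / 2) ≤ M ^ (1 / 2 : ℝ) := Real.rpow_le_rpow_of_exponent_le (by linarith) (by linarith)
    have h2 : M ^ (1 / 2 : ℝ) * M ^ (1 / 2 : ℝ) = M := by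
      rw [← Real.rpow_add hM0]
      norm_num
    have h3 : M < m2 + 1 := Nat.lt_floor_add_one M
    have h4 : M ^ (1 / 2 : ℝ) ≤ M - 1 := by nlinarith
    linarith
  have hmono : M ^ (ε / 2) ≤ M ^ ε := Real.rpow_le_rpow_of_exponent_le (by linarith) (by linarith)
  have key := hM m m2 hm hm21 hmM hm2M (ι × ℕ) (Ω ×ˢ range m2) (fun z => x z.1) (fun z => z.2)
    (fun z hz => hx z.1 (mem_product.1 hz).1) (fun z hz => mem_range.1 (mem_product.1 hz).2)
    (B * m2) (by positivity)
    (by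
      intro h hh k hk h0
      have h1 : ∑ z ∈ Ω ×ˢ range m2, e ((h : ℝ) * x z.1 / m) * e ((k : ℝ) * z.2 / m2) =
          (∑ i ∈ Ω, e ((h : ℝ) * x i / m)) * ∑ y ∈ range m2, e ((k : ℝ) * y / m2) := by
        rw [sum_product, sum_mul_sum]
      rw [h1, norm_mul]
      have h2 : ‖∑ y ∈ range m2, e ((k : ℝ) * y / m2)‖ ≤ m2 := by
        refine (norm_sum_le _ _).trans ?_
        simp [norm_e]
      by_cases hk0 : k = 0
      · exact mul_le_mul (hS h hh (by tauto)) h2 (norm_nonneg _) hB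
      · have h3 : ∑ y ∈ range m2, e ((k : ℝ) * y / m2) = 0 := by
          have h4 := sum_char m2 (by omega) k (by
            intro hd
            have := Int.le_of_dvd (by omega) hd
            omega)
          rw [← h4]
          refine sum_congr rfl fun y _ => ?_
          congr 1
          push_cast
          ring
        rw [h3, norm_zero, mul_zero]
        positivity)
    A N 0 m2 hAN (by omega) (hmono.trans hN) hm2e
    (by
      have h1 : ((Ω ×ˢ range m2).card : ℝ) = Ω.card * m2 := by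
        rw [card_product, card_range]
        push_cast
        ring
      rw [h1]
      have h2 : (N : ℝ) * m2 * (Ω.card * m2) / (m * m2) = (N : ℝ) * Ω.card / m * m2 := by
        field_simp
      rw [h2]
      have h3 : B * M ^ (ε / 2) ≤ (N : ℝ) * Ω.card / m := (mul_le_mul_of_nonneg_left hmono hB).trans hW
      nlinarith)
  have h1 : ((Ω ×ˢ range m2).card : ℝ) = Ω.card * m2 := by
    rw [card_product, card_range]
    push_cast
    ring
  rw [h1] at key
  have h2 : (N : ℝ) * m2 * (Ω.card * m2) / (m * m2) = (N : ℝ) * Ω.card / m * m2 := by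
    field_simp
  rw [h2] at key
  have h3 : ((good (Q κ M) (Ω ×ˢ range m2) (fun z => x z.1) (fun z => z.2) A N 0 m2).card : ℝ) ≤
      (good1 (Q κ M) Ω x A N).card * m2 := by
    have h4 : good (Q κ M) (Ω ×ˢ range m2) (fun z => x z.1) (fun z => z.2) A N 0 m2 ⊆
        good1 (Q κ M) Ω x A N ×ˢ range m2 := by
      intro z hz
      unfold good at hz
      rw [mem_filter, mem_product] at hz
      rw [mem_product]
      unfold good1
      rw [mem_filter]
      exact ⟨⟨hz.1.1, hz.2.1, hz.2.2.2.1⟩, hz.1.2⟩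
    have h5 := card_le_card h4
    rw [card_product, card_range] at h5
    exact_mod_cast h5
  have h6 : (N : ℝ) * Ω.card / m * m2 * M ^ (-(ε / 2)) ≤ (good1 (Q κ M) Ω x A N).card * m2 := key.trans h3
  have h7 : (N : ℝ) * Ω.card / m * M ^ (-(ε / 2)) ≤ (good1 (Q κ M) Ω x A N).card := by
    have h8 : (N : ℝ) * Ω.card / m * M ^ (-(ε / 2)) * m2 ≤ (good1 (Q κ M) Ω x A N).card * m2 := by
      linarith
    exact le_of_mul_le_mul_right h8 hm2r
  refine le_trans ?_ h7
  apply mul_le_mul_of_nonneg_left _ (by positivity)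
  exact Real.rpow_le_rpow_of_exponent_le (by linarith) (by linarith)

end Pool.Agent.Q46.GQ
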