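import Pool.Agent.Q46.GQ.Graph
import Pool.Agent.Q46.GQ.One
import Pool.Agent.Q46.MH.Config

set_option autoImplicit false

/-! # Configurations of points over prime fields (generic version) -/

namespace Pool.Agent.Q46.GQ

open Finset Filter
open Pool.Agent.H469R2.NK (e norm_e e_add)
open Pool.Agent.TH915.PW (e_int sum_char)
open Pool.Agent.W147.PS (ff ff_compare ev_pow)
open Pool.Agent.Q46.MH hiding good iso_two graph goodR graphR good1 graph1 configs conf

open Classical in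
/-- the configurations all of whose distances are in the intervals and isolated -/
noncomputable def conf {p k d : ℕ} (P : ℤ → Prop) (E : Fin k → Finset (Fin d → ZMod p)) (u N : Pr k → ℕ) :
    Finset (Fin k → Fin d → ZMod p) :=
  (Fintype.piFinset E).filter (fun X => ∀ z : Pr k,
    (u z ≤ (dst (X z.1.1) (X z.1.2)).val ∧ (dst (X z.1.1) (X z.1.2)).val < u z + N z) ∧
      P ((dst (X z.1.1) (X z.1.2)).val))

/-- **configurations of `k` points** -/
theorem configs (Q : ℝ → ℝ → ℤ → Prop) (hQ : ∀ r, 1 ≤ r → CH Q r) (k : ℕ) (hk : 2 ≤ k) (ε : ℝ) (hε : 0 < ε) (hε1 : ε ≤ 1) : ∃ κ : ℝ, 0 < κ ∧ ∃ p₀ : ℕ,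
    ∀ p : ℕ, p₀ ≤ p → p.Prime → ∀ (d : ℕ) (E : Fin k → Finset (Fin d → ZMod p)) (u N : Pr k → ℕ),
      (∀ z, u z + N z ≤ p) → (∀ z, (p : ℝ) ^ ε ≤ N z) →
      (∀ z : Pr k, (p : ℝ) ^ (d + ε) ≤ (∏ w : Pr k, (N w : ℝ) / p) ^ 2 * (E z.1.1).card * (E z.1.2).card) →
      (∏ w : Pr k, (N w : ℝ) / p) * (∏ i, ((E i).card : ℝ)) * (p : ℝ) ^ (-ε) ≤
        (conf (Q κ p) E u N).card := by
  classical
  have hne : Nonempty (Pr k) := ⟨⟨(⟨0, by omega⟩, ⟨1, by omega⟩), by
    show (⟨0, _⟩ : Fin k) < ⟨1, _⟩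
    rw [Fin.mk_lt_mk]
    norm_num⟩⟩
  set r : ℕ := Fintype.card (Pr k) with hr
  have hr1 : 1 ≤ r := Fintype.card_pos
  set σ : Pr k ≃ Fin r := Fintype.equivFin (Pr k) with hσ
  obtain ⟨κ, hκ, hg⟩ := graphR Q r (hQ r hr1) (ε / 2) (by positivity) (by linarith)
  have e1 := (tendsto_natCast_atTop_atTop (R := ℝ)).eventually hg
  obtain ⟨p₀, hp₀⟩ := (e1.and (eventually_ge_atTop 3)).exists_forall_of_atTop
  refine ⟨κ, hκ, p₀, ?_⟩
  intro p hp0 hp d E u N hu hN1 hN2
  obtain ⟨g1, g3⟩ := hp₀ p hp0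
  have : Fact p.Prime := ⟨hp⟩
  have hpr : (3 : ℝ) ≤ p := by exact_mod_cast g3
  have hp0' : (0 : ℝ) < p := by linarith
  have hmono : ∀ x y : ℝ, x ≤ y → (p : ℝ) ^ x ≤ (p : ℝ) ^ y := fun x y h =>
    Real.rpow_le_rpow_of_exponent_le (by linarith) h
  set W : ℝ := ∏ w : Pr k, (N w : ℝ) / p with hW
  have hW0 : 0 ≤ W := prod_nonneg fun _ _ => div_nonneg (Nat.cast_nonneg _) hp0'.le
  have hWσ : ∏ j : Fin r, (N (σ.symm j) : ℝ) / ((fun _ => p : Fin r → ℕ) j : ℕ) = W := by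
    rw [hW, ← Equiv.prod_comp σ.symm]
  have hΩc : ((Fintype.piFinset E).card : ℝ) = ∏ i, ((E i).card : ℝ) := by
    rw [Fintype.card_piFinset]
    push_cast
    rfl
  set x : (Fin k → Fin d → ZMod p) → Fin r → ℕ := fun X j =>
    (dst (X (σ.symm j).1.1) (X (σ.symm j).1.2)).val with hx
  set Bd : ℝ := ((Fintype.piFinset E).card : ℝ) * (W * (p : ℝ) ^ (-(ε / 2))) with hBd
  have hBd0 : 0 ≤ Bd := mul_nonneg (Nat.cast_nonneg _) (mul_nonneg hW0 (Real.rpow_nonneg hp0'.le _))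
  have key := g1 (fun _ => p) (fun _ => hp.one_lt.le) (fun _ => le_rfl) (Fin k → Fin d → ZMod p)
    (Fintype.piFinset E) x (fun _ _ _ => ZMod.val_lt _) Bd hBd0
    (by
      intro h hh h0
      obtain ⟨j0, hj0⟩ := Function.ne_iff.1 h0
      set z₀ : Pr k := σ.symm j0 with hz₀
      set w : Pr k → ZMod p := fun z => (h (σ z) : ZMod p) with hw
      have hwz : w z₀ ≠ 0 := by
        intro h1
        rw [hw] at h1
        simp only [hz₀, Equiv.apply_symm_apply] at h1
        rw [ZMod.natCast_eq_zero_iff] at h1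
        exact absurd (Nat.le_of_dvd (Nat.pos_of_ne_zero hj0) h1) (not_le.2 (hh j0))
      have h1 := config_sum (by omega : p ≠ 2) w z₀ hwz E
      have hsum : ∑ X ∈ Fintype.piFinset E, ∏ j, e ((h j : ℝ) * x X j / ((fun _ => p : Fin r → ℕ) j : ℕ)) =
          ∑ X ∈ Fintype.piFinset E, (ZMod.stdAddChar (phs w X) : ℂ) := by
        refine sum_congr rfl fun X _ => ?_
        have h2 : ∀ j, e ((h j : ℝ) * x X j / ((fun _ => p : Fin r → ℕ) j : ℕ)) =
            (ZMod.stdAddChar ((h j : ZMod p) * dst (X (σ.symm j).1.1) (X (σ.symm j).1.2)) : ℂ) := by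
          intro j
          rw [hx]
          exact e_val _ _
        rw [prod_congr rfl fun j _ => h2 j]
        unfold phs
        rw [← Equiv.sum_comp σ.symm, char_sum]
        refine prod_congr rfl fun j _ => ?_
        rw [hw]
        simp only [Equiv.apply_symm_apply]
      rw [hsum]
      set a : ℝ := ((E z₀.1.1).card : ℝ) with ha
      set b : ℝ := ((E z₀.1.2).card : ℝ) with hb
      have ha0 : 0 ≤ a := Nat.cast_nonneg _
      have hb0 : 0 ≤ b := Nat.cast_nonneg _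
      have h3 := hN2 z₀
      have h4 : (0 : ℝ) < (p : ℝ) ^ ((d : ℝ) + ε) := Real.rpow_pos_of_pos hp0' _
      have hab : 0 < a * b := by
        by_contra h5
        have h6 : a * b = 0 := le_antisymm (not_lt.1 h5) (mul_nonneg ha0 hb0)
        have h7 : W ^ 2 * a * b = 0 := by rw [mul_assoc, h6, mul_zero]
        rw [h7] at h3
        linarith
      have h5 : (p : ℝ) ^ d ≤ W ^ 2 * a * b * (p : ℝ) ^ (-ε) := by
        have h6 : (p : ℝ) ^ d = (p : ℝ) ^ ((d : ℝ) + ε) * (p : ℝ) ^ (-ε) := by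
          rw [← Real.rpow_add hp0', ← Real.rpow_natCast]
          congr 1
          ring
        rw [h6]
        exact mul_le_mul_of_nonneg_right h3 (Real.rpow_nonneg hp0'.le _)
      have h6 : Real.sqrt ((p : ℝ) ^ d * a * b) ≤ W * (a * b) * (p : ℝ) ^ (-(ε / 2)) := by
        apply Real.sqrt_le_iff.2
        refine ⟨by positivity, ?_⟩
        have h7 : ((p : ℝ) ^ (-(ε / 2))) ^ 2 = (p : ℝ) ^ (-ε) := by
          rw [← Real.rpow_natCast, ← Real.rpow_mul hp0'.le]
          congr 1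
          push_cast
          ring
        calc (p : ℝ) ^ d * a * b = (p : ℝ) ^ d * (a * b) := by ring
          _ ≤ W ^ 2 * a * b * (p : ℝ) ^ (-ε) * (a * b) := mul_le_mul_of_nonneg_right h5 hab.le
          _ = (W * (a * b)) ^ 2 * (p : ℝ) ^ (-ε) := by ring
          _ = _ := by rw [← h7]; ring
      refine le_of_mul_le_mul_right ?_ hab
      refine h1.trans ((mul_le_mul_of_nonneg_left h6 (Nat.cast_nonneg _)).trans (le_of_eq ?_))
      rw [hBd]
      ring)
    (fun j => u (σ.symm j)) (fun j => N (σ.symm j)) (fun j => hu _)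
    (fun j => (hmono _ _ (by linarith)).trans (hN1 _))
    (by
      rw [hWσ, hBd]
      have h1 : (p : ℝ) ^ (-(ε / 2)) * (p : ℝ) ^ (ε / 2) = 1 := by
        rw [← Real.rpow_add hp0']
        simp
      calc _ = W * ((Fintype.piFinset E).card : ℝ) * ((p : ℝ) ^ (-(ε / 2)) * (p : ℝ) ^ (ε / 2)) := by ring
        _ ≤ _ := by rw [h1, mul_one])
  rw [hWσ, hΩc] at key
  refine le_trans (mul_le_mul_of_nonneg_left (hmono _ _ (by linarith))
    (mul_nonneg hW0 (prod_nonneg fun _ _ => Nat.cast_nonneg _))) (key.trans ?_)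
  have hsub : goodR (Q κ p) (Fintype.piFinset E) x (fun j => u (σ.symm j)) (fun j => N (σ.symm j)) ⊆
      conf (Q κ p) E u N := by
    intro X hX
    unfold goodR at hX
    unfold conf
    rw [mem_filter] at hX ⊢
    refine ⟨hX.1, fun z => ?_⟩
    have h1 := hX.2.1 (σ z)
    have h2 := hX.2.2 (σ z)
    rw [hx] at h1 h2
    simp only [Equiv.symm_apply_apply, mem_Ico] at h1 h2
    exact ⟨h1, h2⟩
  exact_mod_cast card_le_card hsub

end Pool.Agent.Q46.GQ
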