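import Pool.Agent.Q46.GQ.Graph
import Pool.Agent.Q46.GQ.One
import Pool.Agent.Q46.MH.Dist

set_option autoImplicit false

/-! # Bilinear forms and distances over prime fields (generic version) -/

namespace Pool.Agent.Q46.GQ

open Finset Filter
open Pool.Agent.H469R2.NK (e norm_e e_add)
open Pool.Agent.W147.PS (ff ff_compare ev_pow)
open Pool.Agent.Q46.MH hiding good iso_two graph goodR graphR good1 graph1 bilinear


/-- **bilinear forms with arbitrary functions of the two vectors** -/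
theorem bilinear (Q : ℝ → ℝ → ℤ → Prop) (hQ : ∀ r, 1 ≤ r → CH Q r) (ε : ℝ) (hε : 0 < ε) (hε1 : ε ≤ 1) : ∃ κ : ℝ, 0 < κ ∧ ∃ p₀ : ℕ, ∀ p : ℕ, p₀ ≤ p →
    p.Prime → ∀ (d : ℕ) (A B : Finset (Fin d → ZMod p)) (f g : (Fin d → ZMod p) → ZMod p) (c : ZMod p), c ≠ 0 →
    ∀ u N : ℕ, u + N ≤ p → (p : ℝ) ^ ε ≤ N → (p : ℝ) ^ (d + 2 + ε) ≤ (N : ℝ) ^ 2 * A.card * B.card →
      (N : ℝ) * A.card * B.card / p * (p : ℝ) ^ (-ε) ≤ (good1 (Q κ p) (A ×ˢ B)
        (fun z => (c * (z.1 ⬝ᵥ z.2) + f z.1 + g z.2).val) u N).card := by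
  classical
  obtain ⟨κ, hκ, hg⟩ := graph1 Q (hQ 2 (by norm_num)) (ε / 2) (by positivity) (by linarith)
  have e1 := (tendsto_natCast_atTop_atTop (R := ℝ)).eventually hg
  obtain ⟨p₀, hp₀⟩ := (e1.and (eventually_ge_atTop 2)).exists_forall_of_atTop
  refine ⟨κ, hκ, p₀, ?_⟩
  intro p hp0 hp d A B f g c hc u N hu hN1 hN2
  obtain ⟨g1, g3⟩ := hp₀ p hp0
  have : Fact p.Prime := ⟨hp⟩
  have hpr : (2 : ℝ) ≤ p := by exact_mod_cast g3
  have hp0' : (0 : ℝ) < p := by linarith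
  have hmono : ∀ x y : ℝ, x ≤ y → (p : ℝ) ^ x ≤ (p : ℝ) ^ y := fun x y h =>
    Real.rpow_le_rpow_of_exponent_le (by linarith) h
  have hcard : ((A ×ˢ B).card : ℝ) = A.card * B.card := by
    rw [card_product]
    push_cast
    ring
  set a : ℝ := (A.card : ℝ) with ha
  set b : ℝ := (B.card : ℝ) with hb
  have ha0 : 0 ≤ a := Nat.cast_nonneg _
  have hb0 : 0 ≤ b := Nat.cast_nonneg _
  have key := g1 p hp.one_lt.le le_rfl ((Fin d → ZMod p) × (Fin d → ZMod p)) (A ×ˢ B)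
    (fun z => (c * (z.1 ⬝ᵥ z.2) + f z.1 + g z.2).val) (fun z _ => ZMod.val_lt _)
    (Real.sqrt ((p : ℝ) ^ d * a * b)) (Real.sqrt_nonneg _)
    (by
      intro h hh h0
      have hz : (h : ZMod p) ≠ 0 := by
        intro h1
        rw [ZMod.natCast_eq_zero_iff] at h1
        exact absurd (Nat.le_of_dvd (by omega) h1) (by omega)
      have h1 := bil_sum A B f g hc hz
      refine le_trans (le_of_eq ?_) h1
      congr 1
      refine sum_congr rfl fun z _ => ?_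
      rw [e_val])
    u N hu ((hmono _ _ (by linarith)).trans hN1)
    (by
      rw [hcard, le_div_iff₀ hp0']
      have h1 : Real.sqrt ((p : ℝ) ^ d * a * b) * (p : ℝ) ^ (ε / 2) * p =
          Real.sqrt ((p : ℝ) ^ d * a * b * ((p : ℝ) ^ ε * p ^ 2)) := by
        rw [Real.sqrt_mul (show (0 : ℝ) ≤ (p : ℝ) ^ d * a * b by positivity) ((p : ℝ) ^ ε * p ^ 2),
          Real.sqrt_mul (show (0 : ℝ) ≤ (p : ℝ) ^ ε by positivity) ((p : ℝ) ^ 2),
          Real.sqrt_sq hp0'.le, Real.sqrt_eq_rpow ((p : ℝ) ^ ε), ← Real.rpow_mul hp0'.le]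
        have : ε * (1 / 2) = ε / 2 := by ring
        rw [this]
        ring
      rw [h1]
      apply Real.sqrt_le_iff.2
      refine ⟨by positivity, ?_⟩
      have h2 : (p : ℝ) ^ (d + 2 + ε) = (p : ℝ) ^ d * ((p : ℝ) ^ ε * p ^ 2) := by
        rw [Real.rpow_add hp0', Real.rpow_add hp0', Real.rpow_natCast, Real.rpow_two]
        ring
      rw [h2] at hN2
      calc (p : ℝ) ^ d * a * b * ((p : ℝ) ^ ε * p ^ 2) = (p : ℝ) ^ d * ((p : ℝ) ^ ε * p ^ 2) * (a * b) := by ring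
        _ ≤ (N : ℝ) ^ 2 * a * b * (a * b) := mul_le_mul_of_nonneg_right hN2 (by positivity)
        _ = ((N : ℝ) * (a * b)) ^ 2 := by ring)
  refine le_trans ?_ key
  rw [hcard]
  calc (N : ℝ) * a * b / p * (p : ℝ) ^ (-ε) = (N : ℝ) * (a * b) / p * (p : ℝ) ^ (-ε) := by ring
    _ ≤ _ := mul_le_mul_of_nonneg_left (hmono _ _ (by linarith)) (by positivity)

end Pool.Agent.Q46.GQ
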