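import Pool.Agent.Q46.MH.Graph
import Pool.Agent.Q46.MH.GraphR

set_option autoImplicit false

/-! # Equidistributed points of the plane, both coordinates with a property given by a criterion (generic version)

The property `Q κ M` of integers is such that families of vectors of integers with small exponential sums have many
members with all coordinates in `Q κ M`. -/

namespace Pool.Agent.Q46.GQ

open Finset Filter
open Pool.Agent.H469R2.NK (e norm_e e_add)
open Pool.Agent.TH915.PW (e_int sum_char)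
open Pool.Agent.W147.PS (ff ff_compare ev_pow)
open Pool.Agent.Q46.MH hiding good iso_two graph goodR graphR

open Classical in
/-- the criterion for vectors with `r` coordinates and the property `Q` -/
def CH (Q : ℝ → ℝ → ℤ → Prop) (r : ℕ) : Prop := ∀ η : ℝ, 0 < η → η ≤ 1 → ∃ κ : ℝ, 0 < κ ∧ ∀ᶠ M : ℝ in atTop,
    ∀ (ι : Type) (s : Finset ι) (v : ι → Fin r → ℤ), (∀ i ∈ s, ∀ j, M ^ η ≤ v i j) →
    (∀ q : ℕ, 1 ≤ q → (q : ℝ) ≤ M ^ η → ∀ h : Fin r → ℕ, (∀ j, h j < q) → h ≠ 0 →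
      ‖∑ i ∈ s, e (∑ j, (h j : ℝ) * (v i j / q))‖ ≤ s.card * M ^ (-η)) →
    s.card * M ^ (-η) ≤ ((s.filter (fun i => ∀ j, Q κ M (v i j))).card : ℝ)

open Classical in
/-- the members of `Ω` with `A1 ≤ x < A1 + N1`, `A2 ≤ y < A2 + N2`, and `x`, `y` in `P` -/
noncomputable def good {ι : Type*} (P : ℤ → Prop) (Ω : Finset ι) (x y : ι → ℕ) (A1 N1 A2 N2 : ℕ) : Finset ι :=
  Ω.filter (fun i => x i ∈ Ico A1 (A1 + N1) ∧ y i ∈ Ico A2 (A2 + N2) ∧ P (x i) ∧ P (y i))

lemma iso_two (P : ℤ → Prop) (a b : ℕ) (h : ∀ j : Fin 2, P (![(a : ℤ), (b : ℤ)] j)) : P a ∧ P b := by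
  constructor
  · have := h 0
    simpa using this
  · have := h 1
    simpa using this

open Classical in
/-- **points of the plane** -/
theorem graph (Q : ℝ → ℝ → ℤ → Prop) (hQ : CH Q 2) (ε : ℝ) (hε : 0 < ε) (hε1 : ε ≤ 1) : ∃ κ : ℝ, 0 < κ ∧ ∀ᶠ M : ℝ in atTop,
    ∀ (m1 m2 : ℕ), 1 ≤ m1 → 1 ≤ m2 → (m1 : ℝ) ≤ M → (m2 : ℝ) ≤ M →
    ∀ (ι : Type) (Ω : Finset ι) (x y : ι → ℕ), (∀ i ∈ Ω, x i < m1) → (∀ i ∈ Ω, y i < m2) →
    ∀ B : ℝ, 0 ≤ B → (∀ h < m1, ∀ k < m2, (h ≠ 0 ∨ k ≠ 0) →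
      ‖∑ i ∈ Ω, e ((h : ℝ) * x i / m1) * e ((k : ℝ) * y i / m2)‖ ≤ B) →
    ∀ A1 N1 A2 N2 : ℕ, A1 + N1 ≤ m1 → A2 + N2 ≤ m2 → M ^ ε ≤ N1 → M ^ ε ≤ N2 →
      B * M ^ ε ≤ (N1 : ℝ) * N2 * Ω.card / (m1 * m2) →
      (N1 : ℝ) * N2 * Ω.card / (m1 * m2) * M ^ (-ε) ≤ (good (Q κ M) Ω x y A1 N1 A2 N2).card := by
  obtain ⟨κ, hκ, hcr⟩ := hQ (ε / 8) (by positivity) (by linarith)
  refine ⟨κ, hκ, ?_⟩
  filter_upwards [hcr, eventually_ge_atTop (1 : ℝ), ev_log ε hε,
    (tendsto_rpow_atTop (show (0 : ℝ) < 3 * ε / 8 by positivity)).eventually_ge_atTop 8] with M hM hM1 hlg h8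
  intro m1 m2 hm1 hm2 hm1M hm2M ι Ω x y hx hy B hB hS A1 N1 A2 N2 hA1 hA2 hN1 hN2 hW
  have hM0 : 0 < M := by linarith
  have hm1r : (0 : ℝ) < m1 := by exact_mod_cast hm1
  have hm2r : (0 : ℝ) < m2 := by exact_mod_cast hm2
  have hmono : ∀ x y : ℝ, x ≤ y → M ^ x ≤ M ^ y := fun x y h => Real.rpow_le_rpow_of_exponent_le hM1 h
  set η : ℝ := ε / 8 with hη
  set L : ℕ := ⌈M ^ η⌉₊ with hL
  have hLge : M ^ η ≤ L := Nat.le_ceil _
  have hη1 : 1 ≤ M ^ η := Real.one_le_rpow hM1 (by positivity)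
  have hLle : (L : ℝ) ≤ 2 * M ^ η := by
    have := (Nat.ceil_lt_add_one (show 0 ≤ M ^ η by positivity)).le
    linarith
  have hηε : 8 * M ^ η ≤ M ^ (ε / 2) := by
    have e1 : M ^ (ε / 2) = M ^ (3 * ε / 8) * M ^ η := by
      rw [← Real.rpow_add hM0]
      congr 1
      rw [hη]
      ring
    rw [e1]
    exact mul_le_mul_of_nonneg_right h8 (by positivity)
  have hε2 : M ^ ε = M ^ (ε / 2) * M ^ (ε / 2) := by
    rw [← Real.rpow_add hM0]
    congr 1
    ring
  set D : ℝ := M ^ (ε / 2) with hD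
  have hD1 : 1 ≤ D := Real.one_le_rpow hM1 (by positivity)
  have hD8 : 8 ≤ D := by linarith
  have hDε : D ≤ M ^ ε := by rw [hε2]; nlinarith
  have hLN1 : 2 * (L : ℝ) ≤ N1 := by linarith
  have hLN2 : 2 * (L : ℝ) ≤ N2 := by linarith
  have hLN1' : L ≤ N1 := by
    have : (L : ℝ) ≤ N1 := by linarith [(Nat.cast_nonneg L : (0 : ℝ) ≤ L)]
    exact_mod_cast this
  have hLN2' : L ≤ N2 := by
    have : (L : ℝ) ≤ N2 := by linarith [(Nat.cast_nonneg L : (0 : ℝ) ≤ L)]
    exact_mod_cast this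
  set n1 : ℕ := N1 - L with hn1
  set n2 : ℕ := N2 - L with hn2
  have hn1r : (n1 : ℝ) = N1 - L := by rw [hn1, Nat.cast_sub hLN1']
  have hn2r : (n2 : ℝ) = N2 - L := by rw [hn2, Nat.cast_sub hLN2']
  have hn1h : (N1 : ℝ) / 2 ≤ n1 := by linarith
  have hn2h : (N2 : ℝ) / 2 ≤ n2 := by linarith
  have hn1D : D * D / 2 ≤ n1 := by rw [← hε2]; linarith
  have hn2D : D * D / 2 ≤ n2 := by rw [← hε2]; linarith
  have hn10 : (0 : ℝ) < n1 := by nlinarith
  have hn20 : (0 : ℝ) < n2 := by nlinarith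
  set s : Finset ι := Ω.filter (fun i => x i ∈ Ico (A1 + L) (A1 + L + n1) ∧
    y i ∈ Ico (A2 + L) (A2 + L + n2)) with hs
  set W0 : ℝ := (N1 : ℝ) * N2 * Ω.card / (m1 * m2) with hW0
  set W : ℝ := (n1 : ℝ) * n2 * Ω.card / (m1 * m2) with hWd
  have hΩ0 : (0 : ℝ) ≤ Ω.card := Nat.cast_nonneg _
  have hW00 : 0 ≤ W := by positivity
  have hWW : W0 ≤ 4 * W := by
    rw [hW0, hWd, mul_div_assoc', div_le_div_iff_of_pos_right (by positivity)]
    have h1 : (N1 : ℝ) * N2 ≤ 4 * (n1 * n2) := by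
      have h3 := mul_le_mul hn1h hn2h (by positivity) hn10.le
      linarith
    have h2 := mul_le_mul_of_nonneg_right h1 hΩ0
    linarith
  -- the error term
  set Λ : ℝ := (3 + Real.log m1) * (3 + Real.log m2) with hΛ
  have hΛ0 : 0 ≤ Λ := by
    have := Real.log_natCast_nonneg m1
    have := Real.log_natCast_nonneg m2
    positivity
  have hΛM : 4 * Λ ≤ D := by
    have g1 : Real.log m1 ≤ Real.log M := Real.log_le_log hm1r hm1M
    have g2 : Real.log m2 ≤ Real.log M := Real.log_le_log hm2r hm2M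
    have g3 := Real.log_natCast_nonneg m1
    have g4 := Real.log_natCast_nonneg m2
    have g5 : Λ ≤ (3 + Real.log M) ^ 2 := by
      rw [hΛ, sq]
      exact mul_le_mul (by linarith) (by linarith) (by linarith) (by linarith)
    linarith
  have hBΛ : B * Λ * D ≤ W := by
    have g1 : B * (D * D) ≤ W0 := by rw [← hε2]; exact hW
    have g2 : B * Λ * D * 4 ≤ B * (D * D) := by
      have : B * (4 * Λ) ≤ B * D := mul_le_mul_of_nonneg_left hΛM hB
      nlinarith
    linarith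
  have hcomp := complete2 Ω x y m1 m2 hm1 hm2 hx hy B hB hS (A1 + L) n1 (A2 + L) n2 (by omega) (by omega)
  -- the number of elements
  have hcard : |(s.card : ℝ) - W| ≤ B * Λ := by
    have g1 := hcomp 0 0
    have g2 : ∑ i ∈ s, e (0 * x i) * e (0 * y i) = (s.card : ℂ) := by simp [e_zero']
    rw [g2, FF_zero, FF_zero] at g1
    have g3 : (s.card : ℂ) - (n1 : ℂ) * n2 * Ω.card / (m1 * m2) = (((s.card : ℝ) - W : ℝ) : ℂ) := by
      rw [hWd]
      push_cast
      ring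
    rw [g3, Complex.norm_real, Real.norm_eq_abs] at g1
    exact g1
  have hBΛ0 : 0 ≤ B * Λ := mul_nonneg hB hΛ0
  have hBΛ8 : B * Λ * 8 ≤ W := by nlinarith
  have hsW : W / 2 ≤ s.card := by
    have := (abs_le.1 hcard).1
    linarith
  -- the exponential sums
  have hres := hM ι s (fun i => ![(x i : ℤ), (y i : ℤ)]) (by
    intro i hi j
    rw [hs, mem_filter, mem_Ico, mem_Ico] at hi
    fin_cases j
    · show M ^ η ≤ ((x i : ℤ) : ℝ)
      refine hLge.trans ?_
      push_cast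
      exact_mod_cast (by omega : L ≤ x i)
    · show M ^ η ≤ ((y i : ℤ) : ℝ)
      refine hLge.trans ?_
      push_cast
      exact_mod_cast (by omega : L ≤ y i)) (by
    intro q hq hqM h hh hh0
    have hq0 : (0 : ℝ) < q := by exact_mod_cast hq
    have e1 : ∀ i ∈ s, e (∑ j : Fin 2, (h j : ℝ) * ((((fun i => ![(x i : ℤ), (y i : ℤ)]) i j : ℤ) : ℝ) / q)) =
        e ((h 0 : ℝ) / q * x i) * e ((h 1 : ℝ) / q * y i) := by
      intro i _
      rw [Fin.sum_univ_two, e_add]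
      congr 2
      · simp only [Matrix.cons_val_zero]
        push_cast
        ring
      · simp only [Matrix.cons_val_one, Matrix.cons_val_fin_one]
        push_cast
        ring
    rw [sum_congr rfl e1]
    have g1 := hcomp ((h 0 : ℝ) / q) ((h 1 : ℝ) / q)
    have hmain : ‖FF (A1 + L) n1 ((h 0 : ℝ) / q) * FF (A2 + L) n2 ((h 1 : ℝ) / q) * Ω.card / (m1 * m2)‖ * D ≤
        W := by
      rw [norm_div, norm_mul, norm_mul, norm_mul, Complex.norm_natCast, Complex.norm_natCast,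
        Complex.norm_natCast]
      have hcase : h 0 ≠ 0 ∨ h 1 ≠ 0 := by
        by_contra hcon
        push Not at hcon
        apply hh0
        funext j
        fin_cases j
        · exact hcon.1
        · exact hcon.2
      have hqD : (q : ℝ) * D * 2 ≤ D * D := by
        have : (q : ℝ) * 8 ≤ D := by linarith
        nlinarith
      have key : ‖FF (A1 + L) n1 ((h 0 : ℝ) / q)‖ * ‖FF (A2 + L) n2 ((h 1 : ℝ) / q)‖ * D ≤ n1 * n2 := by
        rcases hcase with h1 | h1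
        · have b1 := norm_FF_rat (A1 + L) n1 q (h 0) h1 (hh 0)
          have b2 := norm_FF_le (A2 + L) n2 ((h 1 : ℝ) / q)
          have b3 : (q : ℝ) * D ≤ n1 := by linarith
          calc ‖FF (A1 + L) n1 ((h 0 : ℝ) / q)‖ * ‖FF (A2 + L) n2 ((h 1 : ℝ) / q)‖ * D ≤ q * n2 * D := by
                apply mul_le_mul_of_nonneg_right _ (by linarith)
                exact mul_le_mul b1 b2 (norm_nonneg _) hq0.le
            _ = (q * D) * n2 := by ring
            _ ≤ n1 * n2 := mul_le_mul_of_nonneg_right b3 hn20.le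
        · have b1 := norm_FF_le (A1 + L) n1 ((h 0 : ℝ) / q)
          have b2 := norm_FF_rat (A2 + L) n2 q (h 1) h1 (hh 1)
          have b3 : (q : ℝ) * D ≤ n2 := by linarith
          calc ‖FF (A1 + L) n1 ((h 0 : ℝ) / q)‖ * ‖FF (A2 + L) n2 ((h 1 : ℝ) / q)‖ * D ≤ n1 * q * D := by
                apply mul_le_mul_of_nonneg_right _ (by linarith)
                exact mul_le_mul b1 b2 (norm_nonneg _) hn10.le
            _ = n1 * (q * D) := by ring
            _ ≤ n1 * n2 := mul_le_mul_of_nonneg_left b3 hn10.le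
      calc ‖FF (A1 + L) n1 ((h 0 : ℝ) / q)‖ * ‖FF (A2 + L) n2 ((h 1 : ℝ) / q)‖ * Ω.card / (m1 * m2) * D =
          (‖FF (A1 + L) n1 ((h 0 : ℝ) / q)‖ * ‖FF (A2 + L) n2 ((h 1 : ℝ) / q)‖ * D) *
            (Ω.card / (m1 * m2)) := by ring
        _ ≤ (n1 * n2) * (Ω.card / (m1 * m2)) := mul_le_mul_of_nonneg_right key (by positivity)
        _ = W := by rw [hWd]; ring
    have htot : ‖∑ i ∈ s, e ((h 0 : ℝ) / q * x i) * e ((h 1 : ℝ) / q * y i)‖ * D ≤ 2 * W := by
      have g2 : ‖∑ i ∈ s, e ((h 0 : ℝ) / q * x i) * e ((h 1 : ℝ) / q * y i)‖ ≤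
          ‖FF (A1 + L) n1 ((h 0 : ℝ) / q) * FF (A2 + L) n2 ((h 1 : ℝ) / q) * Ω.card / (m1 * m2)‖ +
            B * Λ := by
        have g3 := norm_sub_norm_le (∑ i ∈ s, e ((h 0 : ℝ) / q * x i) * e ((h 1 : ℝ) / q * y i))
          (FF (A1 + L) n1 ((h 0 : ℝ) / q) * FF (A2 + L) n2 ((h 1 : ℝ) / q) * Ω.card / (m1 * m2))
        linarith
      have g4 := mul_le_mul_of_nonneg_right g2 (by linarith : (0 : ℝ) ≤ D)
      nlinarith
    -- conclusion
    have hηD : 4 ≤ M ^ (-η) * D := by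
      have e2 : M ^ (-η) * D = M ^ (3 * ε / 8) := by
        rw [hD, ← Real.rpow_add hM0]
        congr 1
        rw [hη]
        ring
      rw [e2]
      linarith
    have hD0 : 0 < D := by linarith
    refine le_of_mul_le_mul_right ?_ hD0
    calc _ ≤ 2 * W := htot
      _ ≤ 4 * s.card := by linarith
      _ ≤ (M ^ (-η) * D) * s.card := mul_le_mul_of_nonneg_right hηD (Nat.cast_nonneg _)
      _ = s.card * M ^ (-η) * D := by ring)
  have hsub : s.filter (fun i => ∀ j, Q κ M (((fun i => ![(x i : ℤ), (y i : ℤ)]) i) j)) ⊆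
      good (Q κ M) Ω x y A1 N1 A2 N2 := by
    intro i hi
    rw [mem_filter, hs, mem_filter, mem_Ico, mem_Ico] at hi
    unfold good
    rw [mem_filter, mem_Ico, mem_Ico]
    obtain ⟨⟨g1, g2, g3⟩, g4⟩ := hi
    have g5 := iso_two (Q κ M) (x i) (y i) g4
    exact ⟨g1, ⟨by omega, by omega⟩, ⟨by omega, by omega⟩, g5⟩
  have h9 : ((s.filter (fun i => ∀ j, Q κ M (((fun i => ![(x i : ℤ), (y i : ℤ)]) i) j))).card : ℝ) ≤
      (good (Q κ M) Ω x y A1 N1 A2 N2).card := by exact_mod_cast card_le_card hsub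
  refine le_trans ?_ (hres.trans h9)
  have h10 : M ^ (-ε) * 8 ≤ M ^ (-η) := by
    have e2 : M ^ (-η) = M ^ (-ε) * (M ^ (3 * ε / 8) * M ^ (ε / 2)) := by
      rw [← Real.rpow_add hM0, ← Real.rpow_add hM0]
      congr 1
      rw [hη]
      ring
    rw [e2]
    apply mul_le_mul_of_nonneg_left _ (by positivity)
    nlinarith
  calc W0 * M ^ (-ε) ≤ (4 * W) * M ^ (-ε) := mul_le_mul_of_nonneg_right hWW (by positivity)
    _ = (W / 2) * (M ^ (-ε) * 8) := by ring
    _ ≤ s.card * M ^ (-η) := mul_le_mul hsW h10 (by positivity) (Nat.cast_nonneg _)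

open Classical in
/-- the members of `Ω` with `A j ≤ x j < A j + N j` for all `j`, and all `x j` in `P` -/
noncomputable def goodR {ι : Type*} {r : ℕ} (P : ℤ → Prop) (Ω : Finset ι) (x : ι → Fin r → ℕ) (A N : Fin r → ℕ) : Finset ι :=
  Ω.filter (fun i => (∀ j, x i j ∈ Ico (A j) (A j + N j)) ∧ ∀ j, P (x i j))

open Classical in
/-- **equidistributed points of the space** -/
theorem graphR (Q : ℝ → ℝ → ℤ → Prop) (r : ℕ) (hQ : CH Q r) (ε : ℝ) (hε : 0 < ε) (hε1 : ε ≤ 1) : ∃ κ : ℝ, 0 < κ ∧ ∀ᶠ M : ℝ in atTop,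
    ∀ m : Fin r → ℕ, (∀ j, 1 ≤ m j) → (∀ j, (m j : ℝ) ≤ M) →
    ∀ (ι : Type) (Ω : Finset ι) (x : ι → Fin r → ℕ), (∀ i ∈ Ω, ∀ j, x i j < m j) →
    ∀ B : ℝ, 0 ≤ B → (∀ h : Fin r → ℕ, (∀ j, h j < m j) → h ≠ 0 →
      ‖∑ i ∈ Ω, ∏ j, e ((h j : ℝ) * x i j / m j)‖ ≤ B) →
    ∀ A N : Fin r → ℕ, (∀ j, A j + N j ≤ m j) → (∀ j, M ^ ε ≤ N j) →
      B * M ^ ε ≤ (∏ j, (N j : ℝ) / m j) * Ω.card →
      (∏ j, (N j : ℝ) / m j) * Ω.card * M ^ (-ε) ≤ (goodR (Q κ M) Ω x A N).card := by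
  obtain ⟨κ, hκ, hcr⟩ := hQ (ε / 8) (by positivity) (by linarith)
  refine ⟨κ, hκ, ?_⟩
  filter_upwards [hcr, eventually_ge_atTop (1 : ℝ), ev_logR r ε hε,
    (tendsto_rpow_atTop (show (0 : ℝ) < 3 * ε / 8 by positivity)).eventually_ge_atTop (8 * 2 ^ r)] with M hM hM1 hlg h8
  intro m hm hmM ι Ω x hx B hB hS A N hA hN hW
  have hM0 : 0 < M := by linarith
  have hmr : ∀ j, (0 : ℝ) < m j := fun j => by exact_mod_cast hm j
  have h2r : (1 : ℝ) ≤ 2 ^ r := one_le_pow₀ (by norm_num)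
  set η : ℝ := ε / 8 with hη
  set L : ℕ := ⌈M ^ η⌉₊ with hL
  have hLge : M ^ η ≤ L := Nat.le_ceil _
  have hη1 : 1 ≤ M ^ η := Real.one_le_rpow hM1 (by positivity)
  have hLle : (L : ℝ) ≤ 2 * M ^ η := by
    have := (Nat.ceil_lt_add_one (show 0 ≤ M ^ η by positivity)).le
    linarith
  have hηε : 8 * M ^ η ≤ M ^ (ε / 2) := by
    have e1 : M ^ (ε / 2) = M ^ (3 * ε / 8) * M ^ η := by
      rw [← Real.rpow_add hM0]
      congr 1
      rw [hη]
      ring
    rw [e1]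
    exact mul_le_mul_of_nonneg_right (by linarith) (by positivity)
  have hε2 : M ^ ε = M ^ (ε / 2) * M ^ (ε / 2) := by
    rw [← Real.rpow_add hM0]
    congr 1
    ring
  set D : ℝ := M ^ (ε / 2) with hD
  have hD1 : 1 ≤ D := Real.one_le_rpow hM1 (by positivity)
  have hD8 : 8 ≤ D := by linarith
  have hLN : ∀ j, 2 * (L : ℝ) ≤ N j := by
    intro j
    have := hN j
    nlinarith
  have hLN' : ∀ j, L ≤ N j := by
    intro j
    have : (L : ℝ) ≤ N j := by linarith [(Nat.cast_nonneg L : (0 : ℝ) ≤ L), hLN j]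
    exact_mod_cast this
  set n : Fin r → ℕ := fun j => N j - L with hn
  have hnr : ∀ j, (n j : ℝ) = N j - L := fun j => by rw [hn]; simp only; rw [Nat.cast_sub (hLN' j)]
  have hnh : ∀ j, (N j : ℝ) ≤ 2 * n j := fun j => by rw [hnr]; linarith [hLN j]
  have hnD : ∀ j, D * D / 2 ≤ n j := fun j => by rw [← hε2]; linarith [hN j, hnh j]
  have hn0 : ∀ j, (0 : ℝ) < n j := fun j => by nlinarith [hnD j]
  set s : Finset ι := Ω.filter (fun i => ∀ j, x i j ∈ Ico (A j + L) (A j + L + n j)) with hs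
  set W0 : ℝ := (∏ j, (N j : ℝ) / m j) * Ω.card with hW0
  set W : ℝ := (∏ j, (n j : ℝ) / m j) * Ω.card with hWd
  have hΩ0 : (0 : ℝ) ≤ Ω.card := Nat.cast_nonneg _
  have hWp : 0 ≤ ∏ j, (n j : ℝ) / m j := prod_nonneg fun j _ => div_nonneg (hn0 j).le (hmr j).le
  have hW00 : 0 ≤ W := mul_nonneg hWp hΩ0
  have hWW : W0 ≤ 2 ^ r * W := by
    rw [hW0, hWd, ← mul_assoc]
    apply mul_le_mul_of_nonneg_right _ hΩ0
    have h1 : (2 : ℝ) ^ r * ∏ j, (n j : ℝ) / m j = ∏ j : Fin r, 2 * ((n j : ℝ) / m j) := by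
      rw [prod_mul_distrib, prod_const, card_univ, Fintype.card_fin]
    rw [h1]
    apply prod_le_prod (fun j _ => div_nonneg (Nat.cast_nonneg _) (hmr j).le)
    intro j _
    rw [← mul_div_assoc]
    exact div_le_div_of_nonneg_right (hnh j) (hmr j).le
  -- the error term
  set Λ : ℝ := ∏ j, (3 + Real.log (m j)) with hΛ
  have hlog0 : ∀ j, 0 ≤ 3 + Real.log (m j) := fun j => by
    have := Real.log_natCast_nonneg (m j)
    linarith
  have hΛ0 : 0 ≤ Λ := prod_nonneg fun j _ => hlog0 j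
  have hΛM : 2 ^ r * Λ ≤ D := by
    have g5 : Λ ≤ (3 + Real.log M) ^ r := by
      calc Λ ≤ ∏ _j : Fin r, (3 + Real.log M) := by
            apply prod_le_prod (fun j _ => hlog0 j)
            intro j _
            linarith [Real.log_le_log (hmr j) (hmM j)]
        _ = (3 + Real.log M) ^ r := by rw [prod_const, card_univ, Fintype.card_fin]
    exact (mul_le_mul_of_nonneg_left g5 (by positivity)).trans hlg
  have hBΛ : B * Λ * D ≤ W := by
    have g1 : B * (D * D) ≤ W0 := by rw [← hε2]; exact hW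
    have g2 : B * Λ * D * 2 ^ r ≤ B * (D * D) := by
      have : B * (2 ^ r * Λ) ≤ B * D := mul_le_mul_of_nonneg_left hΛM hB
      nlinarith
    have g3 : B * Λ * D * 2 ^ r ≤ W * 2 ^ r := by linarith
    exact le_of_mul_le_mul_right g3 (by positivity)
  have hcomp := completeR Ω x m hm hx B hB hS (fun j => A j + L) n (fun j => by
    have := hA j
    have := hLN' j
    simp only [hn]
    omega)
  -- the number of elements
  have hcard : |(s.card : ℝ) - W| ≤ B * Λ := by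
    have g1 := hcomp (fun _ => 0)
    have g2 : ∑ i ∈ s, ∏ j : Fin r, e (0 * x i j) = (s.card : ℂ) := by simp [e_zero']
    rw [g2] at g1
    simp only [FF_zero] at g1
    have g3 : (s.card : ℂ) - (∏ j, ((n j : ℕ) : ℂ) / (m j : ℂ)) * Ω.card = (((s.card : ℝ) - W : ℝ) : ℂ) := by
      rw [hWd]
      push_cast
      ring
    rw [g3, Complex.norm_real, Real.norm_eq_abs] at g1
    exact g1
  have hBΛ0 : 0 ≤ B * Λ := mul_nonneg hB hΛ0
  have hBΛ8 : B * Λ * 8 ≤ W := by nlinarith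
  have hsW : W / 2 ≤ s.card := by
    have := (abs_le.1 hcard).1
    linarith
  -- the exponential sums
  have hres := hM ι s (fun i j => (x i j : ℤ)) (by
    intro i hi j
    rw [hs, mem_filter] at hi
    have h1 := mem_Ico.1 (hi.2 j)
    refine hLge.trans ?_
    push_cast
    exact_mod_cast (by omega : L ≤ x i j)) (by
    intro q hq hqM h hh hh0
    have hq0 : (0 : ℝ) < q := by exact_mod_cast hq
    have e1 : ∀ i ∈ s, e (∑ j : Fin r, (h j : ℝ) * (((x i j : ℤ) : ℝ) / q)) =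
        ∏ j, e ((h j : ℝ) / q * x i j) := by
      intro i _
      have e2 : ∀ (t : Finset (Fin r)) (F : Fin r → ℝ), e (∑ j ∈ t, F j) = ∏ j ∈ t, e (F j) := by
        intro t F
        induction t using Finset.induction_on with
        | empty => simpa using e_int 0
        | insert a t ha ih => rw [sum_insert ha, prod_insert ha, e_add, ih]
      rw [e2]
      refine prod_congr rfl fun j _ => ?_
      congr 1
      push_cast
      ring
    rw [sum_congr rfl e1]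
    have g1 := hcomp (fun j => (h j : ℝ) / q)
    have hmain : ‖(∏ j, FF (A j + L) (n j) ((h j : ℝ) / q) / (m j : ℂ)) * Ω.card‖ * D ≤ W := by
      rw [norm_mul, norm_prod, Complex.norm_natCast]
      obtain ⟨j0, hj0⟩ := Function.ne_iff.1 hh0
      have hqD : (q : ℝ) * D * 2 ≤ D * D := by
        have : (q : ℝ) * 8 ≤ D := by linarith
        nlinarith
      have b3 : (q : ℝ) * D ≤ n j0 := by linarith [hnD j0]
      have key : (∏ j, ‖FF (A j + L) (n j) ((h j : ℝ) / q) / (m j : ℂ)‖) * D ≤ ∏ j, (n j : ℝ) / m j := by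
        rw [← mul_prod_erase univ (fun j => ‖FF (A j + L) (n j) ((h j : ℝ) / q) / (m j : ℂ)‖) (mem_univ j0),
          ← mul_prod_erase univ (fun j => (n j : ℝ) / m j) (mem_univ j0)]
        have b1 : ‖FF (A j0 + L) (n j0) ((h j0 : ℝ) / q) / (m j0 : ℂ)‖ * D ≤ (n j0 : ℝ) / m j0 := by
          rw [norm_div, Complex.norm_natCast, div_mul_eq_mul_div]
          apply div_le_div_of_nonneg_right _ (hmr j0).le
          have b2 := norm_FF_rat (A j0 + L) (n j0) q (h j0) hj0 (hh j0)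
          exact (mul_le_mul_of_nonneg_right b2 (by linarith)).trans b3
        have b4 : ∏ j ∈ univ.erase j0, ‖FF (A j + L) (n j) ((h j : ℝ) / q) / (m j : ℂ)‖ ≤
            ∏ j ∈ univ.erase j0, (n j : ℝ) / m j := by
          apply prod_le_prod (fun _ _ => norm_nonneg _)
          intro j _
          rw [norm_div, Complex.norm_natCast]
          exact div_le_div_of_nonneg_right (norm_FF_le _ _ _) (hmr j).le
        calc _ = (‖FF (A j0 + L) (n j0) ((h j0 : ℝ) / q) / (m j0 : ℂ)‖ * D) *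
              ∏ j ∈ univ.erase j0, ‖FF (A j + L) (n j) ((h j : ℝ) / q) / (m j : ℂ)‖ := by ring
          _ ≤ _ := mul_le_mul b1 b4 (prod_nonneg fun _ _ => norm_nonneg _)
              (div_nonneg (hn0 j0).le (hmr j0).le)
      calc _ = ((∏ j, ‖FF (A j + L) (n j) ((h j : ℝ) / q) / (m j : ℂ)‖) * D) * Ω.card := by ring
        _ ≤ (∏ j, (n j : ℝ) / m j) * Ω.card := mul_le_mul_of_nonneg_right key hΩ0
    have htot : ‖∑ i ∈ s, ∏ j, e ((h j : ℝ) / q * x i j)‖ * D ≤ 2 * W := by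
      have g2 : ‖∑ i ∈ s, ∏ j, e ((h j : ℝ) / q * x i j)‖ ≤
          ‖(∏ j, FF (A j + L) (n j) ((h j : ℝ) / q) / (m j : ℂ)) * Ω.card‖ + B * Λ := by
        have g3 := norm_sub_norm_le (∑ i ∈ s, ∏ j, e ((h j : ℝ) / q * x i j))
          ((∏ j, FF (A j + L) (n j) ((h j : ℝ) / q) / (m j : ℂ)) * Ω.card)
        linarith
      have g4 := mul_le_mul_of_nonneg_right g2 (by linarith : (0 : ℝ) ≤ D)
      nlinarith
    -- conclusion
    have hηD : 4 ≤ M ^ (-η) * D := by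
      have e2 : M ^ (-η) * D = M ^ (3 * ε / 8) := by
        rw [hD, ← Real.rpow_add hM0]
        congr 1
        rw [hη]
        ring
      rw [e2]
      linarith
    have hD0 : 0 < D := by linarith
    refine le_of_mul_le_mul_right ?_ hD0
    calc _ ≤ 2 * W := htot
      _ ≤ 4 * s.card := by linarith
      _ ≤ (M ^ (-η) * D) * s.card := mul_le_mul_of_nonneg_right hηD (Nat.cast_nonneg _)
      _ = s.card * M ^ (-η) * D := by ring)
  have hsub : s.filter (fun i => ∀ j, Q κ M (((fun i j => (x i j : ℤ)) i) j)) ⊆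
      goodR (Q κ M) Ω x A N := by
    intro i hi
    rw [mem_filter, hs, mem_filter] at hi
    unfold goodR
    rw [mem_filter]
    obtain ⟨⟨g1, g2⟩, g4⟩ := hi
    refine ⟨g1, fun j => ?_, fun j => ?_⟩
    · have g3 := mem_Ico.1 (g2 j)
      rw [mem_Ico]
      have := hLN' j
      simp only [hn] at g3
      omega
    · exact g4 j
  have h9 : ((s.filter (fun i => ∀ j, Q κ M (((fun i j => (x i j : ℤ)) i) j))).card : ℝ) ≤
      (goodR (Q κ M) Ω x A N).card := by exact_mod_cast card_le_card hsub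
  refine le_trans ?_ (hres.trans h9)
  have h10 : M ^ (-ε) * (2 * 2 ^ r) ≤ M ^ (-η) := by
    have e2 : M ^ (-η) = M ^ (-ε) * (M ^ (3 * ε / 8) * M ^ (ε / 2)) := by
      rw [← Real.rpow_add hM0, ← Real.rpow_add hM0]
      congr 1
      rw [hη]
      ring
    rw [e2]
    apply mul_le_mul_of_nonneg_left _ (by positivity)
    nlinarith
  calc W0 * M ^ (-ε) ≤ (2 ^ r * W) * M ^ (-ε) := mul_le_mul_of_nonneg_right hWW (by positivity)
    _ = (W / 2) * (M ^ (-ε) * (2 * 2 ^ r)) := by ring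
    _ ≤ s.card * M ^ (-η) := mul_le_mul hsW h10 (by positivity) (Nat.cast_nonneg _)


end Pool.Agent.Q46.GQ
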