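import Pool.Agent.Q46.GQ.Graph
import Pool.Agent.Q46.GQ.One
import Pool.Agent.Q46.MH.Poly

set_option autoImplicit false

/-! # Values of polynomials modulo a prime (generic version) -/

namespace Pool.Agent.Q46.GQ

open Finset Filter Polynomial
open Pool.Agent.H469R2.NK (e norm_e e_add)
open Pool.Agent.W147.PS (ff ff_compare ev_pow)
open Pool.Agent.Q46.MH hiding good iso_two graph goodR graphR good1 graph1 polynomial


/-- **polynomials modulo primes** -/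
theorem polynomial (Q : ℝ → ℝ → ℤ → Prop) (hQ : ∀ r, 1 ≤ r → CH Q r) (d : ℕ) (hd : 2 ≤ d) (ε : ℝ) (hε : 0 < ε) (hε1 : ε ≤ 1) :
    ∃ κ : ℝ, 0 < κ ∧ ∃ p₀ : ℕ, ∀ p : ℕ, p₀ ≤ p →
    p.Prime → ∀ f : ℤ[X], f.natDegree = d → ¬ (p : ℤ) ∣ f.leadingCoeff → ∀ A1 N1 A2 N2 : ℕ,
      A1 + N1 ≤ p → A2 + N2 ≤ p → (p : ℝ) ^ (3 / 2 + ε) ≤ (N1 : ℝ) * N2 →
      ∃ G : Finset (ℕ × ℕ), (N1 : ℝ) * N2 / p * (p : ℝ) ^ (-ε) ≤ G.card ∧
        ∀ z ∈ G, (A1 ≤ z.1 ∧ z.1 < A1 + N1) ∧ (A2 ≤ z.2 ∧ z.2 < A2 + N2) ∧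
          (p : ℤ) ∣ f.eval (z.1 : ℤ) - z.2 ∧
          (Q κ p (z.1)) ∧ Q κ p (z.2) := by
  classical
  obtain ⟨κ, hκ, hg⟩ := graph Q (hQ 2 (by norm_num)) (ε / 2) (by positivity) (by linarith)
  have e1 := (tendsto_natCast_atTop_atTop (R := ℝ)).eventually hg
  have e2 := (tendsto_natCast_atTop_atTop (R := ℝ)).eventually
    ((tendsto_rpow_atTop (show (0 : ℝ) < ε / 2 by positivity)).eventually_ge_atTop (d : ℝ))
  obtain ⟨p₀, hp₀⟩ := (e1.and (e2.and ((eventually_ge_atTop 2).and (eventually_gt_atTop d)))).exists_forall_of_atTop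
  refine ⟨κ, hκ, p₀, ?_⟩
  intro p hp0 hp f hfd hlc A1 N1 A2 N2 hA1 hA2 hN
  obtain ⟨g1, g2, g3, g4⟩ := hp₀ p hp0
  have : Fact p.Prime := ⟨hp⟩
  have hpr : (2 : ℝ) ≤ p := by exact_mod_cast g3
  have hp0' : (0 : ℝ) < p := by linarith
  set F : (ZMod p)[X] := f.map (Int.castRingHom (ZMod p)) with hF
  have hFd : F.natDegree = d := by
    rw [hF, ← hfd]
    apply natDegree_map_of_leadingCoeff_ne_zero
    rw [eq_intCast, Ne, ZMod.intCast_zmod_eq_zero_iff_dvd]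
    exact hlc
  have hN2p : (N2 : ℝ) ≤ p := by exact_mod_cast (by omega : N2 ≤ p)
  have hN1p : (N1 : ℝ) ≤ p := by exact_mod_cast (by omega : N1 ≤ p)
  have hN10 : (0 : ℝ) ≤ N1 := Nat.cast_nonneg _
  have hN20 : (0 : ℝ) ≤ N2 := Nat.cast_nonneg _
  have hmono : ∀ x y : ℝ, x ≤ y → (p : ℝ) ^ x ≤ (p : ℝ) ^ y := fun x y h =>
    Real.rpow_le_rpow_of_exponent_le (by linarith) h
  have hsplit : (p : ℝ) ^ (3 / 2 + ε) = (p : ℝ) ^ (1 / 2 + ε) * p := by
    have : (3 / 2 + ε) = (1 / 2 + ε) + 1 := by ring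
    rw [this, Real.rpow_add_one hp0'.ne']
  have hN1 : (p : ℝ) ^ (1 / 2 + ε) ≤ N1 := by
    rw [hsplit] at hN
    have : (N1 : ℝ) * N2 ≤ N1 * p := mul_le_mul_of_nonneg_left hN2p hN10
    exact le_of_mul_le_mul_right (hN.trans this) hp0'
  have hN2 : (p : ℝ) ^ (1 / 2 + ε) ≤ N2 := by
    rw [hsplit] at hN
    have : (N1 : ℝ) * N2 ≤ N2 * p := by
      rw [mul_comm]
      exact mul_le_mul_of_nonneg_left hN1p hN20
    exact le_of_mul_le_mul_right (hN.trans this) hp0'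
  have hW : (N1 : ℝ) * N2 * ((univ : Finset (ZMod p)).card : ℕ) / (p * p) = (N1 : ℝ) * N2 / p := by
    rw [card_univ, ZMod.card]
    field_simp
  have hBW : d * Real.sqrt p * (p : ℝ) ^ (ε / 2) ≤
      (N1 : ℝ) * N2 * ((univ : Finset (ZMod p)).card : ℕ) / (p * p) := by
    rw [hW, le_div_iff₀ hp0']
    refine le_trans ?_ hN
    rw [hsplit]
    apply mul_le_mul_of_nonneg_right _ hp0'.le
    have h5 : (p : ℝ) ^ (1 / 2 + ε) = (p : ℝ) ^ (ε / 2) * Real.sqrt p * (p : ℝ) ^ (ε / 2) := by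
      rw [Real.sqrt_eq_rpow, ← Real.rpow_add hp0', ← Real.rpow_add hp0']
      congr 1
      ring
    rw [h5]
    exact mul_le_mul_of_nonneg_right (mul_le_mul_of_nonneg_right g2 (Real.sqrt_nonneg _)) (by positivity)
  have key := g1 p p hp.one_lt.le hp.one_lt.le le_rfl le_rfl (ZMod p) univ
    (fun x => x.val) (fun x => (F.eval x).val)
    (fun x _ => ZMod.val_lt _) (fun x _ => ZMod.val_lt _) (d * Real.sqrt p) (by positivity)
    (fun h hh k hk h0 => by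
      have := poly_sum F (by omega) (by omega) h k hh hk h0
      rwa [hFd] at this) A1 N1 A2 N2 hA1 hA2
    ((hmono _ _ (by linarith)).trans hN1) ((hmono _ _ (by linarith)).trans hN2) hBW
  set G0 := good (Q κ p) (univ : Finset (ZMod p)) (fun x => x.val)
    (fun x => (F.eval x).val) A1 N1 A2 N2 with hG0
  refine ⟨G0.image (fun x : ZMod p => (x.val, (F.eval x).val)), ?_, ?_⟩
  · rw [card_image_of_injective]
    · refine le_trans ?_ key
      rw [hW]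
      exact mul_le_mul_of_nonneg_left (hmono _ _ (by linarith)) (by positivity)
    · intro u v huv
      exact ZMod.val_injective p (Prod.ext_iff.1 huv).1
  · intro z hz
    obtain ⟨x, hx, rfl⟩ := mem_image.1 hz
    rw [hG0] at hx
    unfold good at hx
    rw [mem_filter, mem_Ico, mem_Ico] at hx
    obtain ⟨-, h1, h2, h3, h4⟩ := hx
    refine ⟨h1, h2, ?_, h3, h4⟩
    rw [← ZMod.intCast_zmod_eq_zero_iff_dvd, Int.cast_sub, Int.cast_natCast,
      ZMod.natCast_zmod_val, hF, sub_eq_zero]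
    have h5 := Polynomial.eval_intCast_map (Int.castRingHom (ZMod p)) f ((x.val : ℕ) : ℤ)
    rw [Int.cast_natCast, ZMod.natCast_zmod_val] at h5
    rw [h5, eq_intCast]
    rfl

end Pool.Agent.Q46.GQ
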