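import Pool.Agent.Q46.GQ.Graph
import Pool.Agent.Q46.GQ.One
import Pool.Agent.Q46.MH.Sidon

set_option autoImplicit false

/-! # Exponential sums over dense Sidon sets (generic version) -/

namespace Pool.Agent.Q46.GQ

open Finset Filter
open Pool.Agent.H469R2.NK (e norm_e e_add)
open Pool.Agent.TH915.PW (e_int sum_char)
open Pool.Agent.W147.PS (ff ff_compare ev_pow)
open Pool.Agent.Y961.JR
open Pool.Agent.Q46.MH hiding good iso_two graph goodR graphR good1 graph1 sidon_main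


open Classical in
/-- **dense Sidon sets** -/
theorem sidon_main (Qz : ℝ → ℝ → ℤ → Prop) (hQz : ∀ r, 1 ≤ r → CH Qz r) (r : ℕ) (hr : 1 ≤ r) (δ : ℝ) (hδ : 0 < δ) (hδ4 : δ ≤ 1 / 4) (ε : ℝ) (hε : 0 < ε) :
    ∃ κ : ℝ, 0 < κ ∧ ∃ n₀ : ℕ, ∀ n : ℕ, n₀ ≤ n → ∀ A : Finset (Fin r → ℤ), Sidon A →
      (∀ a ∈ A, ∀ j, 1 ≤ a j ∧ a j ≤ n) → (n : ℝ) ^ r * (1 - (n : ℝ) ^ (-δ)) ≤ (A.card : ℝ) ^ 2 →
      (A.card : ℝ) * (n : ℝ) ^ (-ε) ≤ ((A.filter (fun a => ∀ j, Qz κ n (a j))).card : ℝ) := by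
  obtain ⟨η, hη0, hηδ, hηε⟩ : ∃ η : ℝ, 0 < η ∧ η ≤ δ / 4 ∧ η ≤ ε / 2 :=
    ⟨min (δ / 4) (ε / 2), lt_min (by positivity) (by positivity), min_le_left _ _, min_le_right _ _⟩
  obtain ⟨κ, hκ, hcr⟩ := hQz r hr η hη0 (by linarith)
  refine ⟨κ, hκ, ?_⟩
  obtain ⟨C2, hC2⟩ : ∃ C2 : ℝ, C2 = CC r + 1 + r * 2 ^ (r + 2) := ⟨_, rfl⟩
  have hC := CC_pos r
  have hrC0 : (0 : ℝ) ≤ r * 2 ^ (r + 2) := by positivity
  have hC21 : 1 ≤ C2 := by linarith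
  have e1 := (tendsto_natCast_atTop_atTop (R := ℝ)).eventually hcr
  have e2 := (tendsto_natCast_atTop_atTop (R := ℝ)).eventually
    ((tendsto_rpow_atTop (show (0 : ℝ) < δ / 4 by positivity)).eventually_ge_atTop (4 * C2))
  have e3 := (tendsto_natCast_atTop_atTop (R := ℝ)).eventually
    ((tendsto_rpow_atTop (show (0 : ℝ) < ε / 2 by positivity)).eventually_ge_atTop 2)
  obtain ⟨n₀, hn₀⟩ := (e1.and (e2.and (e3.and (eventually_ge_atTop 1)))).exists_forall_of_atTop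
  refine ⟨n₀, ?_⟩
  intro n hn A hA hAn hAc
  obtain ⟨hM, hQ, hε2, hn1⟩ := hn₀ n hn
  have hM1 : (1 : ℝ) ≤ n := by exact_mod_cast hn1
  have hM0 : (0 : ℝ) < n := by linarith
  have hmono : ∀ x y : ℝ, x ≤ y → (n : ℝ) ^ x ≤ (n : ℝ) ^ y := fun x y h =>
    Real.rpow_le_rpow_of_exponent_le hM1 h
  have hη1 : 1 ≤ (n : ℝ) ^ η := Real.one_le_rpow hM1 hη0.le
  obtain ⟨L, hL1, hL2⟩ : ∃ L : ℕ, (n : ℝ) ^ η ≤ L ∧ (L : ℝ) ≤ 2 * (n : ℝ) ^ η := by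
    refine ⟨⌈(n : ℝ) ^ η⌉₊, Nat.le_ceil _, ?_⟩
    have := (Nat.ceil_lt_add_one (show 0 ≤ (n : ℝ) ^ η by positivity)).le
    linarith
  have hL3 : 1 ≤ L := by exact_mod_cast hη1.trans hL1
  have hsum : ∀ q : ℕ, (q : ℝ) ≤ (n : ℝ) ^ η → ∀ h : Fin r → ℕ, (∀ j, h j < q) → h ≠ 0 →
      ‖∑ a ∈ A, ch q h a‖ ≤ (CC r + 1) * (n : ℝ) ^ (((r : ℝ) - δ) / 2) := fun q hq h hh h0 =>
    sidon_asym hr δ hδ4 n hn1 A hA hAn hAc q (hq.trans (hmono _ _ (by linarith))) h hh h0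
  have hrem := sidon_rem hr δ η (by linarith) n L hn1 hL3 hL2 A hA hAn
  have hAA : ((big L A).card : ℝ) + (A \ big L A).card = A.card := by
    have h1 : big L A ⊆ A := filter_subset _ _
    have h2 := card_sdiff_add_card_eq_card h1
    rw [← h2]
    push_cast
    ring
  have hP0 : 0 < (n : ℝ) ^ (((r : ℝ) - δ) / 2) := Real.rpow_pos_of_pos hM0 _
  have hQ0 : 0 < (n : ℝ) ^ (δ / 4) := Real.rpow_pos_of_pos hM0 _
  have hQ4 : 4 ≤ (n : ℝ) ^ (δ / 4) := by linarith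
  have hPQ : (n : ℝ) ^ (((r : ℝ) - δ) / 2) * ((n : ℝ) ^ (δ / 4)) ^ 2 ≤ 2 * A.card := by
    apply le_of_sq_le_sq _ (by positivity)
    have h1 : ((n : ℝ) ^ (δ / 4)) ^ 4 = (n : ℝ) ^ δ := by
      rw [← Real.rpow_natCast, ← Real.rpow_mul hM0.le]
      congr 1
      push_cast
      ring
    have hP2 : ((n : ℝ) ^ (((r : ℝ) - δ) / 2)) ^ 2 = (n : ℝ) ^ r * (n : ℝ) ^ (-δ) := by
      rw [← Real.rpow_natCast ((n : ℝ) ^ (((r : ℝ) - δ) / 2)), ← Real.rpow_mul hM0.le,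
        ← Real.rpow_natCast (n : ℝ) r, ← Real.rpow_add hM0]
      congr 1
      push_cast
      ring
    have h2 : (n : ℝ) ^ (-δ) * (n : ℝ) ^ δ = 1 := by
      rw [← Real.rpow_add hM0]
      simp
    have hMr : 0 < (n : ℝ) ^ r := by positivity
    have h6 : 0 < (n : ℝ) ^ (-δ) := Real.rpow_pos_of_pos hM0 _
    have h5 : (4 : ℝ) ≤ ((n : ℝ) ^ (δ / 4)) ^ 4 := by
      calc (4 : ℝ) ≤ (n : ℝ) ^ (δ / 4) := hQ4
        _ = ((n : ℝ) ^ (δ / 4)) ^ 1 := (pow_one _).symm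
        _ ≤ ((n : ℝ) ^ (δ / 4)) ^ 4 := pow_le_pow_right₀ (by linarith) (by norm_num)
    have h3 : (n : ℝ) ^ (-δ) ≤ 3 / 4 := by
      have h4 : (n : ℝ) ^ (-δ) * ((n : ℝ) ^ (δ / 4)) ^ 4 = 1 := by rw [h1, h2]
      nlinarith
    calc _ = ((n : ℝ) ^ (((r : ℝ) - δ) / 2)) ^ 2 * ((n : ℝ) ^ (δ / 4)) ^ 4 := by ring
      _ = (n : ℝ) ^ r * ((n : ℝ) ^ (-δ) * (n : ℝ) ^ δ) := by rw [hP2, h1]; ring
      _ = (n : ℝ) ^ r := by rw [h2, mul_one]
      _ ≤ 4 * ((n : ℝ) ^ r * (1 - (n : ℝ) ^ (-δ))) := by nlinarith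
      _ ≤ 4 * (A.card : ℝ) ^ 2 := by linarith
      _ = _ := by ring
  have hQm : (n : ℝ) ^ (-(δ / 4)) * (n : ℝ) ^ (δ / 4) = 1 := by
    rw [← Real.rpow_add hM0]
    simp
  have hQn : (n : ℝ) ^ (-(δ / 4)) ≤ (n : ℝ) ^ (-η) := hmono _ _ (by linarith)
  have hQn0 : 0 ≤ (n : ℝ) ^ (-(δ / 4)) := Real.rpow_nonneg hM0.le _
  generalize (n : ℝ) ^ (((r : ℝ) - δ) / 2) = P at *
  generalize (n : ℝ) ^ (δ / 4) = Q at *
  generalize (n : ℝ) ^ (-(δ / 4)) = Q' at *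
  have hPa : C2 * P * Q ≤ (A.card : ℝ) / 2 := by
    have h1 : 4 * C2 * (P * Q) ≤ Q * (P * Q) := mul_le_mul_of_nonneg_right hQ (by positivity)
    nlinarith
  have hrC : (r : ℝ) * 2 ^ (r + 2) * P ≤ C2 * P := by
    apply mul_le_mul_of_nonneg_right _ hP0.le
    linarith
  have hC2P : 0 < C2 * P := by positivity
  have ha'a : (A.card : ℝ) / 2 ≤ (big L A).card := by
    have h1 : C2 * P ≤ C2 * P * Q := by nlinarith
    linarith
  have key := hM (Fin r → ℤ) (big L A) (fun v => v) (by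
    intro v hv j
    unfold big at hv
    rw [mem_filter] at hv
    have h1 := hv.2 j
    refine hL1.trans ?_
    exact_mod_cast h1) (by
    intro q hq hqM h hh h0
    have h1 := hsum q hqM h hh h0
    have h2 : ‖∑ v ∈ big L A, ch q h v‖ ≤ C2 * P := by
      have h3 : ∑ v ∈ big L A, ch q h v = ∑ v ∈ A, ch q h v - ∑ v ∈ A \ big L A, ch q h v := by
        rw [← sum_sdiff (show big L A ⊆ A from filter_subset _ _)]
        ring
      have h4 : ‖∑ v ∈ A \ big L A, ch q h v‖ ≤ (A \ big L A).card := by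
        refine (norm_sum_le _ _).trans ?_
        simp [norm_ch]
      rw [h3]
      refine (norm_sub_le _ _).trans ?_
      have h5 : C2 * P = (CC r + 1) * P + r * 2 ^ (r + 2) * P := by rw [hC2]; ring
      linarith
    have h5 : ‖∑ v ∈ big L A, ch q h v‖ * Q ≤ (big L A).card := by
      have := mul_le_mul_of_nonneg_right h2 hQ0.le
      linarith
    have h6 : ‖∑ v ∈ big L A, ch q h v‖ ≤ (big L A).card * Q' := by
      calc _ = (‖∑ v ∈ big L A, ch q h v‖ * Q) * Q' := by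
            rw [mul_assoc, mul_comm Q, hQm, mul_one]
        _ ≤ _ := mul_le_mul_of_nonneg_right h5 hQn0
    exact h6.trans (mul_le_mul_of_nonneg_left hQn (Nat.cast_nonneg _)))
  have hsub : (big L A).filter (fun v => ∀ j, Qz κ n (v j)) ⊆ A.filter (fun v => ∀ j, Qz κ n (v j)) :=
    filter_subset_filter _ (filter_subset _ _)
  have h9 : (((big L A).filter (fun v => ∀ j, Qz κ n (v j))).card : ℝ) ≤
      (A.filter (fun v => ∀ j, Qz κ n (v j))).card := by exact_mod_cast card_le_card hsub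
  refine le_trans ?_ (key.trans h9)
  have h12 : 0 < (n : ℝ) ^ (-ε) := Real.rpow_pos_of_pos hM0 _
  have h10 : 2 * (n : ℝ) ^ (-ε) ≤ (n : ℝ) ^ (-η) := by
    have h11 : (n : ℝ) ^ (-ε) * (n : ℝ) ^ (ε / 2) ≤ (n : ℝ) ^ (-η) := by
      rw [← Real.rpow_add hM0]
      exact hmono _ _ (by linarith)
    nlinarith
  calc (A.card : ℝ) * (n : ℝ) ^ (-ε) ≤ (2 * (big L A).card) * (n : ℝ) ^ (-ε) :=
        mul_le_mul_of_nonneg_right (by linarith) h12.le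
    _ = (big L A).card * (2 * (n : ℝ) ^ (-ε)) := by ring
    _ ≤ (big L A).card * (n : ℝ) ^ (-η) := mul_le_mul_of_nonneg_left h10 (Nat.cast_nonneg _)

end Pool.Agent.Q46.GQ
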