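import Pool.Agent.Q46.GQ.Graph
import Pool.Agent.Q46.GQ.One
import Pool.Agent.Q46.MH.Sumset

set_option autoImplicit false

/-! # Functions of the elements of sumsets modulo a prime (generic version) -/

namespace Pool.Agent.Q46.GQ

open Finset Filter Polynomial
open Pool.Agent.H469R2.NK (e norm_e e_add)
open Pool.Agent.W147.PS (ff ff_compare ev_pow)
open Pool.Agent.Q46.MH hiding good iso_two graph goodR graphR good1 graph1 sumset_gen sumset_poly sumset_inv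


/-- the general form -/
theorem sumset_gen (Q : ℝ → ℝ → ℤ → Prop) (hQ : ∀ r, 1 ≤ r → CH Q r) (D : ℝ) (hD : 1 ≤ D) (ε : ℝ) (hε : 0 < ε) (hε1 : ε ≤ 1) : ∃ κ : ℝ, 0 < κ ∧ ∃ p₀ : ℕ,
    ∀ p : ℕ, p₀ ≤ p → ∀ [Fact p.Prime], ∀ (A B : Finset (ZMod p)) (Ω : Finset (ZMod p × ZMod p))
    (F : ZMod p × ZMod p → ZMod p), (∀ k : ZMod p, k ≠ 0 → ‖∑ z ∈ Ω, (ZMod.stdAddChar (k * F z) : ℂ)‖ ≤
      Real.sqrt (A.card * (B.card * p + (B.card : ℝ) ^ 2 * (D * Real.sqrt p)))) →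
    (A.card : ℝ) * B.card ≤ 2 * Ω.card →
    ∀ s N : ℕ, s + N ≤ p → (p : ℝ) ^ (3 + ε) ≤ (N : ℝ) ^ 2 * A.card * B.card →
      (p : ℝ) ^ (5 / 2 + ε) ≤ (N : ℝ) ^ 2 * A.card →
      (N : ℝ) * A.card * B.card / p * (p : ℝ) ^ (-ε) ≤ (good1 (Q κ p) Ω (fun z => (F z).val) s N).card := by
  classical
  obtain ⟨κ, hκ, hg⟩ := graph1 Q (hQ 2 (by norm_num)) (ε / 4) (by positivity) (by linarith)
  have e1 := (tendsto_natCast_atTop_atTop (R := ℝ)).eventually hg
  have e2 := (tendsto_natCast_atTop_atTop (R := ℝ)).eventually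
    ((tendsto_rpow_atTop (show (0 : ℝ) < ε / 2 by positivity)).eventually_ge_atTop (8 * D))
  obtain ⟨p₀, hp₀⟩ := (e1.and (e2.and (eventually_ge_atTop 2))).exists_forall_of_atTop
  refine ⟨κ, hκ, p₀, ?_⟩
  intro p hp0 hp A B Ω F hsum hΩ s N hs hN1 hN2
  obtain ⟨g1, g2, g3⟩ := hp₀ p hp0
  have hpp : p.Prime := hp.out
  have hpr : (2 : ℝ) ≤ p := by exact_mod_cast g3
  have hp0' : (0 : ℝ) < p := by linarith
  have hmono : ∀ x y : ℝ, x ≤ y → (p : ℝ) ^ x ≤ (p : ℝ) ^ y := fun x y h =>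
    Real.rpow_le_rpow_of_exponent_le (by linarith) h
  set a : ℝ := (A.card : ℝ) with ha
  set b : ℝ := (B.card : ℝ) with hb
  set w : ℝ := (Ω.card : ℝ) with hw
  have ha0 : 0 ≤ a := Nat.cast_nonneg _
  have hb0 : 0 ≤ b := Nat.cast_nonneg _
  have hw0 : 0 ≤ w := Nat.cast_nonneg _
  have hN0 : (0 : ℝ) ≤ N := Nat.cast_nonneg _
  have hap : a ≤ p := by
    have h1 : A.card ≤ p := by
      have := card_le_univ A
      rwa [ZMod.card] at this
    rw [ha]
    exact_mod_cast h1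
  have hbp : b ≤ p := by
    have h1 : B.card ≤ p := by
      have := card_le_univ B
      rwa [ZMod.card] at this
    rw [hb]
    exact_mod_cast h1
  have hNe : (p : ℝ) ^ (ε / 4) ≤ N := by
    have h1 : (p : ℝ) ^ (3 + ε) ≤ (N : ℝ) ^ 2 * ((p : ℝ) * p) := by
      refine hN1.trans ?_
      rw [mul_assoc]
      exact mul_le_mul_of_nonneg_left (mul_le_mul hap hbp hb0 hp0'.le) (by positivity)
    have h2 : (p : ℝ) ^ (3 + ε) = (p : ℝ) ^ (1 + ε) * ((p : ℝ) * p) := by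
      have : (3 + ε) = (1 + ε) + 2 := by ring
      rw [this, Real.rpow_add hp0', Real.rpow_two]
      ring
    rw [h2] at h1
    have h3 : (p : ℝ) ^ (1 + ε) ≤ (N : ℝ) ^ 2 := le_of_mul_le_mul_right h1 (by positivity)
    have h4 : ((p : ℝ) ^ (ε / 4)) ^ 2 ≤ (N : ℝ) ^ 2 := by
      refine le_trans ?_ h3
      rw [← Real.rpow_natCast, ← Real.rpow_mul hp0'.le]
      apply hmono
      push_cast
      linarith
    exact (pow_le_pow_iff_left₀ (by positivity) hN0 (by norm_num)).1 h4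
  have hbound : Real.sqrt (a * (b * p + b ^ 2 * (D * Real.sqrt p))) * (p : ℝ) ^ (ε / 4) ≤ (N : ℝ) * w / p := by
    rw [le_div_iff₀ hp0']
    have h1 : Real.sqrt (a * (b * p + b ^ 2 * (D * Real.sqrt p))) * (p : ℝ) ^ (ε / 4) * p =
        Real.sqrt (a * (b * p + b ^ 2 * (D * Real.sqrt p)) * ((p : ℝ) ^ (ε / 2) * p ^ 2)) := by
      rw [Real.sqrt_mul (show 0 ≤ a * (b * p + b ^ 2 * (D * Real.sqrt p)) by positivity),
        Real.sqrt_mul (show (0 : ℝ) ≤ (p : ℝ) ^ (ε / 2) by positivity) ((p : ℝ) ^ 2),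
        Real.sqrt_sq hp0'.le, Real.sqrt_eq_rpow ((p : ℝ) ^ (ε / 2)), ← Real.rpow_mul hp0'.le]
      have : ε / 2 * (1 / 2) = ε / 4 := by ring
      rw [this]
      ring
    rw [h1]
    apply Real.sqrt_le_iff.2
    refine ⟨by positivity, ?_⟩
    have h2 : (a * b) ^ 2 * (N : ℝ) ^ 2 ≤ 4 * ((N : ℝ) * w) ^ 2 := by
      have h3 : (a * b) ^ 2 ≤ (2 * w) ^ 2 := pow_le_pow_left₀ (by positivity) hΩ 2
      have h4 := mul_le_mul_of_nonneg_right h3 (show 0 ≤ (N : ℝ) ^ 2 by positivity)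
      nlinarith
    have h5 : 8 * D * ((p : ℝ) ^ (ε / 2) * p ^ 2 * p) ≤ (N : ℝ) ^ 2 * a * b := by
      refine le_trans ?_ hN1
      have h6 : (p : ℝ) ^ (3 + ε) = (p : ℝ) ^ (ε / 2) * ((p : ℝ) ^ (ε / 2) * p ^ 2 * p) := by
        have : (3 + ε) = ε / 2 + (ε / 2 + 3) := by ring
        rw [this, Real.rpow_add hp0', Real.rpow_add hp0']
        have : (p : ℝ) ^ (3 : ℝ) = p ^ 3 := by
          rw [← Real.rpow_natCast]
          norm_num
        rw [this]
        ring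
      rw [h6]
      exact mul_le_mul_of_nonneg_right g2 (by positivity)
    have h7 : 8 * D * ((p : ℝ) ^ (ε / 2) * p ^ 2 * Real.sqrt p) ≤ (N : ℝ) ^ 2 * a := by
      refine le_trans ?_ hN2
      have h6 : (p : ℝ) ^ (5 / 2 + ε) = (p : ℝ) ^ (ε / 2) * ((p : ℝ) ^ (ε / 2) * p ^ 2 * Real.sqrt p) := by
        have : (5 / 2 + ε) = ε / 2 + (ε / 2 + (2 + 1 / 2)) := by ring
        rw [this, Real.rpow_add hp0', Real.rpow_add hp0', Real.rpow_add hp0', Real.rpow_two, Real.sqrt_eq_rpow]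
        ring
      rw [h6]
      exact mul_le_mul_of_nonneg_right g2 (by positivity)
    have h8 : 4 * (a * (b * p + b ^ 2 * (D * Real.sqrt p)) * ((p : ℝ) ^ (ε / 2) * p ^ 2)) ≤
        (a * b) ^ 2 * (N : ℝ) ^ 2 := by
      have h9 : 8 * ((p : ℝ) ^ (ε / 2) * p ^ 2 * p) ≤ (N : ℝ) ^ 2 * a * b := by
        refine le_trans ?_ h5
        have : 0 ≤ (p : ℝ) ^ (ε / 2) * p ^ 2 * p := by positivity
        nlinarith
      have h10 := mul_le_mul_of_nonneg_left h9 (show 0 ≤ a * b by positivity)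
      have h11 := mul_le_mul_of_nonneg_left h7 (show 0 ≤ a * b ^ 2 by positivity)
      nlinarith
    linarith
  have key := g1 p hpp.one_lt.le le_rfl (ZMod p × ZMod p) Ω (fun z => (F z).val) (fun z _ => ZMod.val_lt _)
    (Real.sqrt (a * (b * p + b ^ 2 * (D * Real.sqrt p)))) (Real.sqrt_nonneg _)
    (by
      intro h hh h0
      have hz : (h : ZMod p) ≠ 0 := by
        intro h1
        rw [ZMod.natCast_eq_zero_iff] at h1
        exact absurd (Nat.le_of_dvd (by omega) h1) (by omega)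
      have h1 := hsum h hz
      refine le_trans (le_of_eq ?_) h1
      congr 1
      refine sum_congr rfl fun z _ => ?_
      rw [e_val]) s N hs hNe hbound
  refine le_trans ?_ key
  have h1 : (p : ℝ) ^ (-ε) * 2 ≤ (p : ℝ) ^ (-(ε / 4)) := by
    have h2 : (p : ℝ) ^ (-(ε / 4)) = (p : ℝ) ^ (-ε) * (p : ℝ) ^ (3 * ε / 4) := by
      rw [← Real.rpow_add hp0']
      congr 1
      ring
    rw [h2]
    apply mul_le_mul_of_nonneg_left _ (by positivity)
    have h3 : (p : ℝ) ^ (ε / 2) ≤ (p : ℝ) ^ (3 * ε / 4) := hmono _ _ (by linarith)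
    linarith
  calc (N : ℝ) * a * b / p * (p : ℝ) ^ (-ε) = (N : ℝ) * (a * b) / (2 * p) * ((p : ℝ) ^ (-ε) * 2) := by
        field_simp
    _ ≤ (N : ℝ) * (2 * w) / (2 * p) * ((p : ℝ) ^ (-ε) * 2) := by
        apply mul_le_mul_of_nonneg_right _ (by positivity)
        apply div_le_div_of_nonneg_right _ (by positivity)
        exact mul_le_mul_of_nonneg_left hΩ hN0
    _ = (N : ℝ) * w / p * ((p : ℝ) ^ (-ε) * 2) := by
        field_simp
    _ ≤ _ := mul_le_mul_of_nonneg_left h1 (by positivity)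

/-- **polynomials on sumsets** -/
theorem sumset_poly (Q : ℝ → ℝ → ℤ → Prop) (hQ : ∀ r, 1 ≤ r → CH Q r) (d : ℕ) (hd : 2 ≤ d) (ε : ℝ) (hε : 0 < ε) (hε1 : ε ≤ 1) : ∃ κ : ℝ, 0 < κ ∧ ∃ p₀ : ℕ,
    ∀ p : ℕ, p₀ ≤ p → p.Prime → ∀ (A B : Finset (ZMod p)) (f : (ZMod p)[X]), f.natDegree = d →
    ∀ (u v : ZMod p → ZMod p) (s N : ℕ), s + N ≤ p → (p : ℝ) ^ (3 + ε) ≤ (N : ℝ) ^ 2 * A.card * B.card →
      (p : ℝ) ^ (5 / 2 + ε) ≤ (N : ℝ) ^ 2 * A.card →
      (N : ℝ) * A.card * B.card / p * (p : ℝ) ^ (-ε) ≤ (good1 (Q κ p) (A ×ˢ B)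
        (fun z => (f.eval (z.1 + z.2) + u z.1 + v z.2).val) s N).card := by
  classical
  obtain ⟨κ, hκ, p₀, h⟩ := sumset_gen Q hQ d (by exact_mod_cast (by omega : 1 ≤ d)) ε hε hε1
  refine ⟨κ, hκ, max p₀ (d + 1), ?_⟩
  intro p hp hpp A B f hf u v s N hs h1 h2
  have : Fact p.Prime := ⟨hpp⟩
  have hpd : d < p := by
    have := (le_max_right _ _).trans hp
    omega
  refine h p ((le_max_left _ _).trans hp) A B (A ×ˢ B) (fun z => f.eval (z.1 + z.2) + u z.1 + v z.2) ?_ ?_ s N hs h1 h2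
  · intro k hk
    have h3 := bil_gen A B (fun x => (ZMod.stdAddChar (k * f.eval x) : ℂ)) (fun x => (norm_char _).le)
      (d * Real.sqrt p) (by positivity)
      (fun c hc => by
        have h4 := corr_poly f (by omega) (by omega) hk hc
        rwa [hf] at h4)
      (fun a => (ZMod.stdAddChar (k * u a) : ℂ)) (fun b => (ZMod.stdAddChar (k * v b) : ℂ))
      (fun a => (norm_char _).le) (fun b => (norm_char _).le)
    refine le_trans (le_of_eq ?_) h3
    congr 1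
    refine sum_congr rfl fun z _ => ?_
    rw [← AddChar.map_add_eq_mul, ← AddChar.map_add_eq_mul]
    congr 1
    ring
  · rw [card_product]
    push_cast
    have : 0 ≤ (A.card : ℝ) * B.card := by positivity
    linarith

/-- **inverses on sumsets** -/
theorem sumset_inv (Q : ℝ → ℝ → ℤ → Prop) (hQ : ∀ r, 1 ≤ r → CH Q r) (ε : ℝ) (hε : 0 < ε) (hε1 : ε ≤ 1) : ∃ κ : ℝ, 0 < κ ∧ ∃ p₀ : ℕ,
    ∀ p : ℕ, p₀ ≤ p → p.Prime → ∀ (A B : Finset (ZMod p)) (c : ZMod p), c ≠ 0 →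
    ∀ (u v : ZMod p → ZMod p) (s N : ℕ), s + N ≤ p → (p : ℝ) ^ (3 + ε) ≤ (N : ℝ) ^ 2 * A.card * B.card →
      (p : ℝ) ^ (5 / 2 + ε) ≤ (N : ℝ) ^ 2 * A.card →
      (N : ℝ) * A.card * B.card / p * (p : ℝ) ^ (-ε) ≤
        (good1 (Q κ p) ((A ×ˢ B).filter (fun z => z.1 + z.2 ≠ 0))
        (fun z => (c * (z.1 + z.2)⁻¹ + u z.1 + v z.2).val) s N).card := by
  classical
  obtain ⟨κ, hκ, p₀, h⟩ := sumset_gen Q hQ 4 (by norm_num) ε hε hε1
  refine ⟨κ, hκ, max p₀ 2, ?_⟩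
  intro p hp hpp A B c hc u v s N hs h1 h2
  have : Fact p.Prime := ⟨hpp⟩
  have hp2 : 2 ≤ p := (le_max_right _ _).trans hp
  have hpr : (2 : ℝ) ≤ p := by exact_mod_cast hp2
  refine h p ((le_max_left _ _).trans hp) A B _ (fun z => c * (z.1 + z.2)⁻¹ + u z.1 + v z.2) ?_ ?_ s N hs h1 h2
  · intro k hk
    have h3 := bil_gen A B (Ginv (k * c)) (fun x => by
        unfold Ginv
        split_ifs
        · simp
        · exact (norm_char _).le)
      (4 * Real.sqrt p) (by positivity)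
      (fun c' hc' => corr_inv (mul_ne_zero hk hc) hc')
      (fun a => (ZMod.stdAddChar (k * u a) : ℂ)) (fun b => (ZMod.stdAddChar (k * v b) : ℂ))
      (fun a => (norm_char _).le) (fun b => (norm_char _).le)
    refine le_trans (le_of_eq ?_) h3
    congr 1
    rw [sum_filter]
    refine sum_congr rfl fun z _ => ?_
    unfold Ginv
    by_cases hz : z.1 + z.2 = 0
    · simp [hz]
    · rw [if_pos hz, if_neg hz, ← AddChar.map_add_eq_mul, ← AddChar.map_add_eq_mul]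
      congr 1
      ring
  · -- the number of pairs
    have h3 : ((A ×ˢ B).filter (fun z => ¬ (z.1 + z.2 ≠ 0))).card ≤ B.card := by
      refine card_le_card_of_injOn (fun z => z.2) ?_ ?_
      · intro z hz
        rw [mem_coe, mem_filter, mem_product] at hz
        exact hz.1.2
      · intro z hz w hw hzw
        rw [mem_coe, mem_filter, not_not] at hz hw
        simp only at hzw
        refine Prod.ext ?_ hzw
        have h4 := hz.2
        have h5 := hw.2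
        rw [hzw] at h4
        exact add_right_cancel (h4.trans h5.symm)
    have h4 := card_filter_add_card_filter_not (s := A ×ˢ B) (fun z => z.1 + z.2 ≠ 0)
    rw [card_product] at h4
    have hA2 : 2 ≤ A.card := by
      by_contra h5
      have h6 : (A.card : ℝ) ≤ 1 := by exact_mod_cast (by omega : A.card ≤ 1)
      have hNp : (N : ℝ) ≤ p := by exact_mod_cast (by omega : N ≤ p)
      have h7 : (N : ℝ) ^ 2 * A.card ≤ (p : ℝ) ^ 2 * 1 :=
        mul_le_mul (pow_le_pow_left₀ (Nat.cast_nonneg _) hNp 2) h6 (Nat.cast_nonneg _) (by positivity)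
      have h8 : (p : ℝ) ^ (2 : ℝ) < (p : ℝ) ^ (5 / 2 + ε) :=
        Real.rpow_lt_rpow_of_exponent_lt (by linarith) (by linarith)
      rw [Real.rpow_two] at h8
      linarith
    have h5 : A.card * B.card ≤ 2 * ((A ×ˢ B).filter (fun z => z.1 + z.2 ≠ 0)).card := by
      have h6 : 2 * B.card ≤ A.card * B.card := Nat.mul_le_mul_right _ hA2
      omega
    exact_mod_cast h5

end Pool.Agent.Q46.GQ
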