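import Pool.Agent.Q46.GQ.Graph
import Pool.Agent.Q46.GQ.One
import Pool.Agent.Q46.MH.Zech

set_option autoImplicit false

/-! # Exponents of the solutions of `a g^i + b g^j = c` (generic version) -/

namespace Pool.Agent.Q46.GQ

open Finset Filter
open Pool.Agent.H469R2.NK (e norm_e e_add)
open Pool.Agent.TH915.PW (e_int sum_char)
open Pool.Agent.W147.PS (ff ff_compare ev_pow)
open Pool.Agent.Q46.MH hiding good iso_two graph goodR graphR good1 graph1 zech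


/-- **exponents of the solutions of linear equations** -/
theorem zech (Q : ℝ → ℝ → ℤ → Prop) (hQ : ∀ r, 1 ≤ r → CH Q r) (ε : ℝ) (hε : 0 < ε) (hε1 : ε ≤ 1) : ∃ κ : ℝ, 0 < κ ∧ ∃ p₀ : ℕ, ∀ p : ℕ, p₀ ≤ p →
    p.Prime → ∀ g a b c : ℤ, orderOf (g : ZMod p) = p - 1 → ¬ (p : ℤ) ∣ a → ¬ (p : ℤ) ∣ b → ¬ (p : ℤ) ∣ c →
    ∀ A1 N1 A2 N2 : ℕ, A1 + N1 ≤ p - 1 → A2 + N2 ≤ p - 1 → (p : ℝ) ^ (3 / 2 + ε) ≤ (N1 : ℝ) * N2 →
      ∃ G : Finset (ℕ × ℕ), (N1 : ℝ) * N2 / p * (p : ℝ) ^ (-ε) ≤ G.card ∧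
        ∀ z ∈ G, (A1 ≤ z.1 ∧ z.1 < A1 + N1) ∧ (A2 ≤ z.2 ∧ z.2 < A2 + N2) ∧
          (p : ℤ) ∣ a * g ^ z.1 + b * g ^ z.2 - c ∧
          (Q κ p (z.1)) ∧ Q κ p (z.2) := by
  classical
  obtain ⟨κ, hκ, hg⟩ := graph Q (hQ 2 (by norm_num)) (ε / 2) (by positivity) (by linarith)
  have e1 := (tendsto_natCast_atTop_atTop (R := ℝ)).eventually hg
  have e2 := (tendsto_natCast_atTop_atTop (R := ℝ)).eventually
    ((tendsto_rpow_atTop (show (0 : ℝ) < ε / 2 by positivity)).eventually_ge_atTop 2)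
  obtain ⟨p₀, hp₀⟩ := (e1.and (e2.and (eventually_ge_atTop 4))).exists_forall_of_atTop
  refine ⟨κ, hκ, p₀, ?_⟩
  intro p hp0 hp g a b c hgo ha hb hc A1 N1 A2 N2 hA1 hA2 hN
  obtain ⟨g1, g2, g3⟩ := hp₀ p hp0
  have : Fact p.Prime := ⟨hp⟩
  have hpr : (4 : ℝ) ≤ p := by exact_mod_cast g3
  have hp0' : (0 : ℝ) < p := by linarith
  have hunit : ∀ t : ℤ, ¬ (p : ℤ) ∣ t → (t : ZMod p) ≠ 0 := by
    intro t ht
    rw [Ne, ZMod.intCast_zmod_eq_zero_iff_dvd]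
    exact ht
  have hgne : (g : ZMod p) ≠ 0 := by
    intro h0
    rw [h0] at hgo
    have h1 : orderOf (0 : ZMod p) = 0 := by
      rw [orderOf_eq_zero_iff']
      intro n hn
      rw [zero_pow hn.ne']
      exact zero_ne_one
    omega
  set gu : (ZMod p)ˣ := Units.mk0 (g : ZMod p) hgne with hgud
  set au : (ZMod p)ˣ := Units.mk0 (a : ZMod p) (hunit a ha) with haud
  set bu : (ZMod p)ˣ := Units.mk0 (b : ZMod p) (hunit b hb) with hbud
  set cu : (ZMod p)ˣ := Units.mk0 (c : ZMod p) (hunit c hc) with hcud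
  have hgen : ∀ x : (ZMod p)ˣ, x ∈ Subgroup.zpowers gu := by
    have h1 : orderOf gu = Nat.card (ZMod p)ˣ := by
      rw [← orderOf_units, hgud, Units.val_mk0, hgo, Nat.card_eq_fintype_card, ZMod.card_units_eq_totient,
        Nat.totient_prime hp]
    have h2 : Subgroup.zpowers gu = ⊤ := by
      apply Subgroup.eq_top_of_card_eq
      rw [Nat.card_zpowers, h1]
    intro x
    rw [h2]
    exact Subgroup.mem_top x
  have hN2p : (N2 : ℝ) ≤ p := by exact_mod_cast (by omega : N2 ≤ p)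
  have hN1p : (N1 : ℝ) ≤ p := by exact_mod_cast (by omega : N1 ≤ p)
  have hN10 : (0 : ℝ) ≤ N1 := Nat.cast_nonneg _
  have hN20 : (0 : ℝ) ≤ N2 := Nat.cast_nonneg _
  have hmono : ∀ x y : ℝ, x ≤ y → (p : ℝ) ^ x ≤ (p : ℝ) ^ y := fun x y h =>
    Real.rpow_le_rpow_of_exponent_le (by linarith) h
  have hsplit : (p : ℝ) ^ (3 / 2 + ε) = (p : ℝ) ^ (1 / 2 + ε) * p := by
    have : (3 / 2 + ε) = (1 / 2 + ε) + 1 := by ring
    rw [this, Real.rpow_add_one hp0'.ne']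
  have hN1 : (p : ℝ) ^ (1 / 2 + ε) ≤ N1 := by
    rw [hsplit] at hN
    have : (N1 : ℝ) * N2 ≤ N1 * p := mul_le_mul_of_nonneg_left hN2p hN10
    exact le_of_mul_le_mul_right (hN.trans this) hp0'
  have hN2 : (p : ℝ) ^ (1 / 2 + ε) ≤ N2 := by
    rw [hsplit] at hN
    have : (N1 : ℝ) * N2 ≤ N2 * p := by
      rw [mul_comm]
      exact mul_le_mul_of_nonneg_left hN1p hN20
    exact le_of_mul_le_mul_right (hN.trans this) hp0'
  have hcard : ((sol gu au bu cu).card : ℝ) = (p : ℝ) - 2 := sol_card hgen au bu cu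
  have hT : ((p - 1 : ℕ) : ℝ) = (p : ℝ) - 1 := by
    rw [Nat.cast_sub hp.one_lt.le]
    simp
  have hW : (N1 : ℝ) * N2 / (2 * p) ≤
      (N1 : ℝ) * N2 * (sol gu au bu cu).card / (((p - 1 : ℕ) : ℝ) * ((p - 1 : ℕ) : ℝ)) := by
    rw [hcard, hT, div_le_div_iff₀ (by positivity) (by nlinarith)]
    have h1 : ((p : ℝ) - 1) * (p - 1) ≤ (p - 2) * (2 * p) := by nlinarith
    have h2 : 0 ≤ (N1 : ℝ) * N2 := by positivity
    calc (N1 : ℝ) * N2 * (((p : ℝ) - 1) * (p - 1)) ≤ (N1 : ℝ) * N2 * ((p - 2) * (2 * p)) :=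
          mul_le_mul_of_nonneg_left h1 h2
      _ = (N1 : ℝ) * N2 * (p - 2) * (2 * p) := by ring
  have hBW : Real.sqrt p * (p : ℝ) ^ (ε / 2) ≤
      (N1 : ℝ) * N2 * (sol gu au bu cu).card / (((p - 1 : ℕ) : ℝ) * ((p - 1 : ℕ) : ℝ)) := by
    refine le_trans ?_ hW
    rw [le_div_iff₀ (by positivity)]
    refine le_trans ?_ hN
    rw [hsplit]
    have h5 : (p : ℝ) ^ (1 / 2 + ε) = (p : ℝ) ^ (ε / 2) * (Real.sqrt p * (p : ℝ) ^ (ε / 2)) := by
      rw [Real.sqrt_eq_rpow, ← Real.rpow_add hp0', ← Real.rpow_add hp0']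
      congr 1
      ring
    rw [h5]
    have h6 : 0 ≤ Real.sqrt p * (p : ℝ) ^ (ε / 2) := by positivity
    have h7 := mul_le_mul_of_nonneg_right g2 h6
    nlinarith
  have q1 := g1 (p - 1) (p - 1) (by omega) (by omega) (by rw [hT]; linarith) (by rw [hT]; linarith)
    (ℕ × ℕ) (sol gu au bu cu) (fun z => z.1) (fun z => z.2)
    (fun z hz => by
      unfold sol at hz
      rw [mem_filter, mem_product, mem_range, mem_range] at hz
      exact hz.1.1)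
    (fun z hz => by
      unfold sol at hz
      rw [mem_filter, mem_product, mem_range, mem_range] at hz
      exact hz.1.2) (Real.sqrt p) (Real.sqrt_nonneg _)
    (fun h hh k hk h0 => sol_bound hgen au bu cu h k hh hk h0) A1 N1 A2 N2 hA1 hA2
    ((hmono _ _ (by linarith)).trans hN1) ((hmono _ _ (by linarith)).trans hN2) hBW
  refine ⟨good (Q κ p) (sol gu au bu cu) (fun z => z.1) (fun z => z.2) A1 N1 A2 N2, ?_, ?_⟩
  · refine le_trans ?_ q1
    have h1 : (p : ℝ) ^ (-ε) * 2 ≤ (p : ℝ) ^ (-(ε / 2)) := by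
      have : (p : ℝ) ^ (-(ε / 2)) = (p : ℝ) ^ (-ε) * (p : ℝ) ^ (ε / 2) := by
        rw [← Real.rpow_add hp0']
        congr 1
        ring
      rw [this]
      exact mul_le_mul_of_nonneg_left g2 (by positivity)
    calc (N1 : ℝ) * N2 / p * (p : ℝ) ^ (-ε) = (N1 : ℝ) * N2 / (2 * p) * ((p : ℝ) ^ (-ε) * 2) := by
          field_simp
      _ ≤ _ := mul_le_mul hW h1 (by positivity) (by positivity)
  · intro z hz
    unfold good sol at hz
    rw [mem_filter, mem_filter, mem_Ico, mem_Ico] at hz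
    obtain ⟨⟨-, h0⟩, h1, h2, h3, h4⟩ := hz
    refine ⟨h1, h2, ?_, h3, h4⟩
    rw [← ZMod.intCast_zmod_eq_zero_iff_dvd]
    push_cast
    rw [sub_eq_zero]
    rw [Units.val_pow_eq_pow_val, Units.val_pow_eq_pow_val, hgud, haud, hbud, hcud, Units.val_mk0,
      Units.val_mk0, Units.val_mk0, Units.val_mk0] at h0
    exact h0

end Pool.Agent.Q46.GQ
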